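import Pool.Agent.MP_3ce0a0_al.Q2T1.Defs

/-!
Betweenness, medians, convex sets, directions and branch points in tree-spaces.
-/

set_option autoImplicit false

namespace Pool.Agent.MP_3ce0a0_al.Q2T1

noncomputable section

variable {X : Type} [MetricSpace X]

/-! ### Betweenness in a metric space -/

section Met

variable {a b c d x y z : X}

theorem Btw.symm (h : Btw x y z) : Btw z y x := by
  unfold Btw at *
  rw [dist_comm z y, dist_comm y x, dist_comm z x]
  linarith

theorem btw_comm : Btw x y z ↔ Btw z y x := ⟨Btw.symm, Btw.symm⟩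

@[simp] theorem btw_left (x y : X) : Btw x x y := by simp [Btw]

@[simp] theorem btw_right (x y : X) : Btw x y y := by simp [Btw]

theorem btw_of_le (h : dist x y + dist y z ≤ dist x z) : Btw x y z :=
  le_antisymm h (dist_triangle x y z)

theorem Btw.eq_of_self (h : Btw x y x) : y = x := by
  unfold Btw at h
  rw [dist_self, dist_comm x y] at h
  exact dist_eq_zero.1 (by linarith)

@[simp] theorem btw_self_iff : Btw x y x ↔ y = x := ⟨Btw.eq_of_self, fun h => h ▸ btw_left _ _⟩

theorem Btw.antisymm (h : Btw x y z) (h' : Btw x z y) : y = z := by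
  unfold Btw at *
  rw [dist_comm z y] at h'
  exact dist_eq_zero.1 (by linarith)

theorem Btw.antisymm' (h : Btw x y z) (h' : Btw y x z) : x = y := h'.symm.antisymm h.symm

theorem Btw.dist_le_left (h : Btw x y z) : dist x y ≤ dist x z := by
  unfold Btw at h
  linarith [dist_nonneg (x := y) (y := z)]

theorem Btw.dist_le_right (h : Btw x y z) : dist y z ≤ dist x z := by
  unfold Btw at h
  linarith [dist_nonneg (x := x) (y := y)]

theorem Btw.dist_lt_left (h : Btw x y z) (hne : y ≠ z) : dist x y < dist x z := by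
  unfold Btw at h
  linarith [dist_pos.2 hne]

theorem Btw.dist_lt_right (h : Btw x y z) (hne : x ≠ y) : dist y z < dist x z := by
  unfold Btw at h
  linarith [dist_pos.2 hne]

theorem Btw.ne_of_ne_left (h : Btw x y z) (hne : y ≠ x) : z ≠ x := by
  rintro rfl
  exact hne h.eq_of_self

theorem Btw.ne_of_ne_right (h : Btw x y z) (hne : y ≠ z) : x ≠ z := by
  rintro rfl
  exact hne h.eq_of_self

/-- `a b c` and `a c d` give `a b d`. -/
theorem Btw.trans_left (h : Btw a b c) (h' : Btw a c d) : Btw a b d := by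
  apply btw_of_le
  unfold Btw at *
  linarith [dist_triangle b c d]

/-- `a b c` and `a c d` give `b c d`. -/
theorem Btw.trans_left' (h : Btw a b c) (h' : Btw a c d) : Btw b c d := by
  apply btw_of_le
  unfold Btw at *
  linarith [dist_triangle a b d]

/-- `a b d` and `b c d` give `a c d`. -/
theorem Btw.trans_right (h : Btw a b d) (h' : Btw b c d) : Btw a c d :=
  (h'.symm.trans_left h.symm).symm

/-- `a b d` and `b c d` give `a b c`. -/
theorem Btw.trans_right' (h : Btw a b d) (h' : Btw b c d) : Btw a b c :=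
  (h'.symm.trans_left' h.symm).symm

@[simp] theorem mem_seg : z ∈ seg x y ↔ Btw x z y := Iff.rfl

theorem seg_comm (x y : X) : seg x y = seg y x := Set.ext fun _ => btw_comm

theorem seg_self (x : X) : seg x x = {x} := Set.ext fun _ => btw_self_iff

theorem mem_dir : z ∈ dir x y ↔ ¬ Btw y x z := Iff.rfl

theorem not_mem_dir : z ∉ dir x y ↔ Btw y x z := not_not

theorem self_mem_dir (h : y ≠ x) : y ∈ dir x y := fun h' => h h'.eq_of_self.symm

theorem base_not_mem_dir (x y : X) : x ∉ dir x y := fun h => h (btw_right _ _)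

theorem ne_of_mem_dir (h : z ∈ dir x y) : z ≠ x := fun e => h (e ▸ btw_right _ _)

theorem ne_of_mem_dir' (h : z ∈ dir x y) : y ≠ x := fun e => h (e ▸ btw_left _ _)

theorem mem_dir_comm : z ∈ dir x y ↔ y ∈ dir x z := not_congr btw_comm

theorem dir_self (x : X) : dir x x = ∅ := Set.eq_empty_of_forall_notMem fun _ h => h (btw_left _ _)

/-- A point beyond `y` lies in the direction of `y`. -/
theorem Btw.mem_dir (h : Btw x y z) (hne : y ≠ x) : z ∈ dir x y := fun h' =>
  hne (h'.antisymm' h)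

/-- A point before `z` lies in the direction of `z`. -/
theorem Btw.mem_dir' (h : Btw x y z) (hne : y ≠ x) : y ∈ dir x z := mem_dir_comm.1 (h.mem_dir hne)

theorem dir_mem_Dirs (h : y ≠ x) : dir x y ∈ Dirs x := ⟨y, h, rfl⟩

theorem Dirs.nonempty {δ : Set X} (h : δ ∈ Dirs x) : δ.Nonempty := by
  obtain ⟨y, hy, rfl⟩ := h
  exact ⟨y, self_mem_dir hy⟩

theorem Dirs.not_mem {δ : Set X} (h : δ ∈ Dirs x) : x ∉ δ := by
  obtain ⟨y, _, rfl⟩ := h
  exact base_not_mem_dir _ _

theorem conv_univ : Conv (Set.univ : Set X) := fun _ _ _ _ _ _ => trivial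

theorem conv_empty : Conv (∅ : Set X) := fun _ h => h.elim

theorem conv_singleton (x : X) : Conv ({x} : Set X) := by
  rintro _ rfl _ rfl z h
  exact h.eq_of_self

theorem Conv.inter {C D : Set X} (hC : Conv C) (hD : Conv D) : Conv (C ∩ D) :=
  fun x hx y hy z h => ⟨hC x hx.1 y hy.1 z h, hD x hx.2 y hy.2 z h⟩

theorem conv_iInter {ι : Sort*} {C : ι → Set X} (h : ∀ i, Conv (C i)) : Conv (⋂ i, C i) :=
  fun x hx y hy z hz => Set.mem_iInter.2 fun i =>
    h i x (Set.mem_iInter.1 hx i) y (Set.mem_iInter.1 hy i) z hz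

theorem Conv.medCl {C : Set X} (hC : Conv C) : MedCl C :=
  fun x hx y hy _ _ m h _ _ => hC x hx y hy m h

theorem subset_hull (A : Set X) : A ⊆ hull A := fun x hx => ⟨x, hx, x, hx, btw_left _ _⟩

theorem hull_min {A C : Set X} (hC : Conv C) (h : A ⊆ C) : hull A ⊆ C :=
  fun z ⟨x, hx, y, hy, hz⟩ => hC x (h hx) y (h hy) z hz

theorem hull_mono {A B : Set X} (h : A ⊆ B) : hull A ⊆ hull B :=
  fun _ ⟨x, hx, y, hy, hz⟩ => ⟨x, h hx, y, h hy, hz⟩

theorem Conv.hull_eq {C : Set X} (hC : Conv C) : hull C = C :=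
  (hull_min hC le_rfl).antisymm (subset_hull C)

theorem Tri.swap12 (h : Tri x a b c) : Tri x b a c :=
  ⟨h.2.1, h.1, h.2.2.1, h.2.2.2.1.symm, h.2.2.2.2.2, h.2.2.2.2.1⟩

theorem Tri.swap23 (h : Tri x a b c) : Tri x a c b :=
  ⟨h.1, h.2.2.1, h.2.1, h.2.2.2.2.2, h.2.2.2.2.1.symm, h.2.2.2.1⟩

theorem Tri.rot (h : Tri x a b c) : Tri x b c a := h.swap12.swap23

theorem Br_mono {C D : Set X} (h : C ⊆ D) : Br C ⊆ Br D :=
  fun _ ⟨a, ha, b, hb, c, hc, ht⟩ => ⟨a, h ha, b, h hb, c, h hc, ht⟩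

theorem Conv.Br_subset {C : Set X} (hC : Conv C) : Br C ⊆ C :=
  fun x ⟨a, ha, b, hb, _, _, ht⟩ => hC a ha b hb x ht.2.2.2.1

theorem MedCl.Br_subset {C : Set X} (hC : MedCl C) : Br C ⊆ C :=
  fun x ⟨a, ha, b, hb, c, hc, ht⟩ => hC a ha b hb c hc x ht.2.2.2.1 ht.2.2.2.2.1 ht.2.2.2.2.2

theorem MedCl.Br {C : Set X} (hC : MedCl C) : MedCl (Br C) := by
  intro x hx y hy z hz m h1 h2 h3
  by_cases e1 : x = m
  · exact e1 ▸ hx
  by_cases e2 : y = m
  · exact e2 ▸ hy
  by_cases e3 : z = m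
  · exact e3 ▸ hz
  exact ⟨x, hC.Br_subset hx, y, hC.Br_subset hy, z, hC.Br_subset hz, e1, e2, e3, h1, h2, h3⟩

theorem btw_coe {C : Set X} {x y z : C} : Btw (x : X) (y : X) (z : X) ↔ Btw x y z := Iff.rfl

theorem Isometry.btw_iff {Y : Type} [MetricSpace Y] {f : X → Y} (hf : Isometry f) :
    Btw (f x) (f y) (f z) ↔ Btw x y z := by
  simp only [Btw, hf.dist_eq]

end Met

/-! ### Tree-spaces -/

variable [IsTree X] {a b c d p q w x y z : X}

/-- The segment from `x` to `z` is covered by the segments from `x` to `w` and from `w` to `z`. -/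
theorem Btw.or (h : Btw x y z) (w : X) : Btw x y w ∨ Btw w y z := by
  have h4 := IsTree.four x z y w
  unfold Btw at h
  rcases le_max_iff.1 h4 with h1 | h1
  · right
    apply btw_of_le
    rw [dist_comm w y, dist_comm w z]
    linarith
  · left
    apply btw_of_le
    rw [dist_comm z y] at h1
    linarith

theorem Btw.total (h : Btw x y w) (h' : Btw x z w) : Btw x y z ∨ Btw x z y :=
  (h.or z).imp id fun h1 => h'.trans_right' h1

theorem Btw.total' (h : Btw x y w) (h' : Btw x z w) : Btw y z w ∨ Btw z y w :=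
  (h.symm.total h'.symm).symm.imp Btw.symm Btw.symm

theorem Btw.of_dist_le (h : Btw x y w) (h' : Btw x z w) (hd : dist x y ≤ dist x z) :
    Btw x y z := by
  rcases h.total h' with h1 | h1
  · exact h1
  · have : z = y := by
      by_contra hne
      exact absurd (h1.dist_lt_left hne) (not_lt.2 hd)
    exact this ▸ btw_right _ _

theorem Btw.eq_of_dist (h : Btw x y w) (h' : Btw x z w) (hd : dist x y = dist x z) : y = z :=
  (h.of_dist_le h' hd.le).antisymm (h'.of_dist_le h hd.ge)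

theorem Btw.dist_eq_abs (h : Btw x y w) (h' : Btw x z w) : dist y z = |dist x y - dist x z| := by
  rcases h.total h' with h1 | h1
  · rw [abs_sub_comm, abs_of_nonneg (sub_nonneg.2 h1.dist_le_left)]
    unfold Btw at h1
    linarith
  · rw [abs_of_nonneg (sub_nonneg.2 h1.dist_le_left), dist_comm y z]
    unfold Btw at h1
    linarith

/-- Concatenation: `a b c` and `b c d` with `b ≠ c` give `a b d`. -/
theorem Btw.concat_left (h : Btw a b c) (h' : Btw b c d) (hne : b ≠ c) : Btw a b d :=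
  (h.or d).elim id fun h1 => absurd (h1.antisymm h'.symm) hne

/-- Concatenation: `a b c` and `b c d` with `b ≠ c` give `a c d`. -/
theorem Btw.concat_right (h : Btw a b c) (h' : Btw b c d) (hne : b ≠ c) : Btw a c d :=
  (h.concat_left h' hne).trans_right h'

theorem med_btw12 (x y z : X) : Btw x (med x y z) y := (IsTree.ex_med x y z).choose_spec.1

theorem med_btw23 (x y z : X) : Btw y (med x y z) z := (IsTree.ex_med x y z).choose_spec.2.1

theorem med_btw13 (x y z : X) : Btw x (med x y z) z := (IsTree.ex_med x y z).choose_spec.2.2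

theorem dist_of_btw3 {m : X} (h1 : Btw x m y) (h2 : Btw y m z) (h3 : Btw x m z) :
    dist x m = (dist x y + dist x z - dist y z) / 2 := by
  unfold Btw at *
  rw [dist_comm y m] at h2
  linarith

theorem dist_med (x y z : X) : dist x (med x y z) = (dist x y + dist x z - dist y z) / 2 :=
  dist_of_btw3 (med_btw12 x y z) (med_btw23 x y z) (med_btw13 x y z)

theorem eq_med {m : X} (h1 : Btw x m y) (h2 : Btw y m z) (h3 : Btw x m z) : m = med x y z :=
  h1.eq_of_dist (med_btw12 x y z) ((dist_of_btw3 h1 h2 h3).trans (dist_med x y z).symm)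

theorem med_comm12 (x y z : X) : med x y z = med y x z :=
  eq_med (med_btw12 x y z).symm (med_btw13 x y z) (med_btw23 x y z)

theorem med_comm23 (x y z : X) : med x y z = med x z y :=
  eq_med (med_btw13 x y z) (med_btw23 x y z).symm (med_btw12 x y z)

theorem med_comm13 (x y z : X) : med x y z = med z y x :=
  eq_med (med_btw23 x y z).symm (med_btw12 x y z).symm (med_btw13 x y z).symm

theorem med_rot (x y z : X) : med x y z = med y z x := by rw [med_comm12, med_comm23]

theorem Btw.med_eq (h : Btw x y z) : med x y z = y := (eq_med (btw_right _ _) (btw_left _ _) h).symm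

theorem med_eq_mid_iff : med x y z = y ↔ Btw x y z :=
  ⟨fun h => by simpa only [h] using med_btw13 x y z, Btw.med_eq⟩

theorem med_eq_left_iff : med x y z = x ↔ Btw y x z := by rw [med_comm12, med_eq_mid_iff]

theorem med_eq_right_iff : med x y z = z ↔ Btw x z y := by rw [med_comm23, med_eq_mid_iff]

@[simp] theorem med_self12 (x z : X) : med x x z = x := (btw_left _ _).med_eq

@[simp] theorem med_self23 (x y : X) : med x y y = y := (btw_right _ _).med_eq

@[simp] theorem med_self13 (x y : X) : med x y x = x := by rw [med_comm23, med_self12]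

/-- The segments from `x` to `y` and to `z` meet in the segment from `x` to the median. -/
theorem btw_med_iff : Btw x p (med x y z) ↔ Btw x p y ∧ Btw x p z := by
  refine ⟨fun h => ⟨h.trans_left (med_btw12 x y z), h.trans_left (med_btw13 x y z)⟩, fun h => ?_⟩
  refine h.1.of_dist_le (med_btw12 x y z) ?_
  rw [dist_med]
  have h1 := h.1
  have h2 := h.2
  unfold Btw at h1 h2
  have := dist_triangle y p z
  rw [dist_comm y p] at this
  linarith

/-- The median is the gate of `z` in the segment from `x` to `y`. -/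
theorem Btw.gate (h : Btw x p y) (z : X) : Btw z (med x y z) p := by
  rcases h.or (med x y z) with h1 | h1
  · exact (h1.trans_left' (med_btw13 x y z)).symm
  · exact (med_btw23 x y z).symm.trans_right' h1

theorem dist_med_le (x y z z' : X) : dist (med x y z) (med x y z') ≤ dist z z' := by
  rw [(med_btw12 x y z).dist_eq_abs (med_btw12 x y z'), dist_med, dist_med, abs_le]
  have h1 := dist_triangle x z z'
  have h2 := dist_triangle x z' z
  have h3 := dist_triangle y z z'
  have h4 := dist_triangle y z' z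
  rw [dist_comm z' z] at h2 h4
  constructor <;> linarith

theorem dist_med_med_le (x y z x' y' z' : X) :
    dist (med x y z) (med x' y' z') ≤ dist x x' + dist y y' + dist z z' := by
  have h1 := dist_med_le x y z z'
  have h2 := dist_med_le x z' y y'
  have h3 := dist_med_le y' z' x x'
  rw [← med_comm23 x y z', ← med_comm23 x y' z'] at h2
  rw [← med_rot x y' z', ← med_rot x' y' z'] at h3
  linarith [dist_triangle4 (med x y z) (med x y z') (med x y' z') (med x' y' z')]

/-- If the gates of `z` and `w` in a segment differ, the geodesic passes through both. -/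
theorem btw_of_med_ne (h : med x y z ≠ med x y w) :
    Btw z (med x y z) w ∧ Btw z (med x y w) w := by
  have h1 := (med_btw12 x y w).gate z
  have h2 := ((med_btw12 x y z).gate w).symm
  exact ⟨h1.concat_left h2 h, h1.concat_right h2 h⟩

theorem conv_seg (x y : X) : Conv (seg x y) := by
  intro p hp q hq z hz
  rcases Btw.total hp hq with h | h
  · exact (h.trans_right hz).trans_left hq
  · exact (h.trans_right hz.symm).trans_left hp

theorem Conv.med_mem12 {C : Set X} (hC : Conv C) (hx : x ∈ C) (hy : y ∈ C) (z : X) :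
    med x y z ∈ C := hC x hx y hy _ (med_btw12 x y z)

theorem Conv.med_mem23 {C : Set X} (hC : Conv C) (x : X) (hy : y ∈ C) (hz : z ∈ C) :
    med x y z ∈ C := hC y hy z hz _ (med_btw23 x y z)

theorem Conv.med_mem13 {C : Set X} (hC : Conv C) (hx : x ∈ C) (y : X) (hz : z ∈ C) :
    med x y z ∈ C := hC x hx z hz _ (med_btw13 x y z)

theorem MedCl.med_mem {C : Set X} (hC : MedCl C) (hx : x ∈ C) (hy : y ∈ C) (hz : z ∈ C) :
    med x y z ∈ C := hC x hx y hy z hz _ (med_btw12 x y z) (med_btw23 x y z) (med_btw13 x y z)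

theorem medCl_iff {C : Set X} : MedCl C ↔ ∀ x ∈ C, ∀ y ∈ C, ∀ z ∈ C, med x y z ∈ C :=
  ⟨fun h _ hx _ hy _ hz => h.med_mem hx hy hz,
    fun h x hx y hy z hz _ h1 h2 h3 => eq_med h1 h2 h3 ▸ h x hx y hy z hz⟩

theorem mem_hull_base {A : Set X} (ha : a ∈ A) : z ∈ hull A ↔ ∃ y ∈ A, Btw a z y := by
  refine ⟨fun ⟨x, hx, y, hy, h⟩ => ?_, fun ⟨y, hy, h⟩ => ⟨a, ha, y, hy, h⟩⟩
  rcases h.or a with h1 | h1
  · exact ⟨x, hx, h1.symm⟩
  · exact ⟨y, hy, h1⟩

theorem conv_hull (A : Set X) : Conv (hull A) := by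
  intro p hp q hq z hz
  obtain ⟨a, ha, -⟩ := id hp
  obtain ⟨y, hy, h1⟩ := (mem_hull_base ha).1 hp
  obtain ⟨y', hy', h2⟩ := (mem_hull_base ha).1 hq
  rcases hz.or a with h | h
  · exact ⟨a, ha, y, hy, h.symm.trans_left h1⟩
  · exact ⟨a, ha, y', hy', h.trans_left h2⟩

theorem hull_pair (x y : X) : hull {x, y} = seg x y :=
  (hull_min (conv_seg x y) (by
    rintro _ (rfl | rfl)
    · exact btw_left _ _
    · exact btw_right _ _)).antisymm fun _ h => ⟨x, by simp, y, by simp, h⟩

/-- A set that contains all segments from one point to its points is convex. -/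
theorem conv_of_star {C : Set X} (a : X) (h : ∀ x ∈ C, ∀ z, Btw a z x → z ∈ C) : Conv C :=
  fun x hx y hy z hz => (hz.or a).elim (fun h1 => h x hx z h1.symm) fun h1 => h y hy z h1

theorem Conv.union {C D : Set X} (hC : Conv C) (hD : Conv D) (h : (C ∩ D).Nonempty) :
    Conv (C ∪ D) := by
  obtain ⟨a, ha, ha'⟩ := h
  exact conv_of_star a fun x hx z hz =>
    hx.imp (fun hx => hC a ha x hx z hz) fun hx => hD a ha' x hx z hz

theorem helly3 {A B C : Set X} (hA : Conv A) (hB : Conv B) (hC : Conv C) (h1 : (A ∩ B).Nonempty)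
    (h2 : (B ∩ C).Nonempty) (h3 : (A ∩ C).Nonempty) : (A ∩ B ∩ C).Nonempty := by
  obtain ⟨x, hx⟩ := h1
  obtain ⟨y, hy⟩ := h2
  obtain ⟨z, hz⟩ := h3
  exact ⟨med x y z, ⟨hA.med_mem13 hx.1 y hz.1, hB.med_mem12 hx.2 hy.1 z⟩, hC.med_mem23 x hy.2 hz.2⟩

/-- Helly's theorem, relative to a convex set `D`. -/
theorem helly_rel {ι : Type*} (s : Finset ι) (C : ι → Set X) (hC : ∀ i ∈ s, Conv (C i))
    (h : ∀ i ∈ s, ∀ j ∈ s, (C i ∩ C j).Nonempty) :
    ∀ D : Set X, Conv D → D.Nonempty → (∀ i ∈ s, (D ∩ C i).Nonempty) →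
      ∃ x ∈ D, ∀ i ∈ s, x ∈ C i := by
  classical
  induction s using Finset.induction_on with
  | empty => exact fun D _ ⟨x, hx⟩ _ => ⟨x, hx, by simp⟩
  | insert j s _ ih =>
    intro D hD _ hDC
    have hj := Finset.mem_insert_self j s
    have hi : ∀ i ∈ s, i ∈ insert j s := fun i hi => Finset.mem_insert_of_mem hi
    obtain ⟨x, hx, hx'⟩ := ih (fun i h' => hC i (hi i h')) (fun i h1 k h2 => h i (hi i h1) k (hi k h2))
      (D ∩ C j) (hD.inter (hC j hj)) (hDC j hj) fun i h' =>
        helly3 hD (hC j hj) (hC i (hi i h')) (hDC j hj) (h j hj i (hi i h')) (hDC i (hi i h'))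
    refine ⟨x, hx.1, fun i h' => ?_⟩
    rcases Finset.mem_insert.1 h' with rfl | h'
    · exact hx.2
    · exact hx' i h'

/-- Helly's theorem. -/
theorem helly [Nonempty X] {ι : Type*} (s : Finset ι) (C : ι → Set X) (hC : ∀ i ∈ s, Conv (C i))
    (h : ∀ i ∈ s, ∀ j ∈ s, (C i ∩ C j).Nonempty) : ∃ x, ∀ i ∈ s, x ∈ C i := by
  obtain ⟨x, -, hx⟩ := helly_rel s C hC h Set.univ conv_univ Set.univ_nonempty fun i hi => by
    simpa using h i hi i hi
  exact ⟨x, hx⟩

/-- A gate of `x` in a convex set is determined by one segment. -/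
theorem Conv.gate_of {C : Set X} (hC : Conv C) (hp : p ∈ C) (h : ∀ z ∈ C, Btw x z p → z = p) :
    ∀ q ∈ C, Btw x p q := fun q hq => by
  have := h _ (hC.med_mem23 x hp hq) (med_btw12 x p q)
  exact med_eq_mid_iff.1 this

/-- A nearest point of a convex set is a gate. -/
theorem Conv.gate_of_dist {C : Set X} (hC : Conv C) (hp : p ∈ C)
    (h : ∀ z ∈ C, dist x p ≤ dist x z) : ∀ q ∈ C, Btw x p q :=
  hC.gate_of hp fun z hz hb => by
    by_contra hne
    exact absurd (hb.dist_lt_left hne) (not_lt.2 (h z hz))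

/-! ### Directions -/

theorem dir_eq_of_mem (h : z ∈ dir x y) : dir x z = dir x y := by
  ext w
  constructor
  · exact fun h1 h2 => (h2.or z).elim h h1
  · exact fun h1 h2 => (h2.or y).elim (fun h3 => h h3.symm) h1

theorem dir_eq_iff (hy : y ≠ x) : dir x y = dir x z ↔ ¬ Btw y x z :=
  ⟨fun h => fun h' => (h ▸ self_mem_dir hy : y ∈ dir x z) h'.symm,
    fun h => (dir_eq_of_mem h).symm⟩

theorem dir_ne_iff (hy : y ≠ x) : dir x y ≠ dir x z ↔ Btw y x z := by
  rw [Ne, dir_eq_iff hy, not_not]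

theorem not_btw_of_mem_dir (ha : a ∈ dir x y) (hb : b ∈ dir x y) : ¬ Btw a x b := by
  rw [← dir_eq_of_mem ha] at hb
  exact hb

theorem btw_of_mem_dir (ha : a ∈ dir x y) (hb : b ∉ dir x y) : Btw a x b := by
  rw [← dir_eq_of_mem ha] at hb
  exact not_not.1 hb

theorem Btw.dir_eq (h : Btw x y z) (hne : y ≠ x) : dir x z = dir x y := dir_eq_of_mem (h.mem_dir hne)

theorem mem_dir_iff_med : z ∈ dir x y ↔ med x y z ≠ x := by
  rw [Ne, med_eq_left_iff, mem_dir]

theorem med_mem_dir (h : z ∈ dir x y) : med x y z ∈ dir x y :=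
  (med_btw12 x y z).mem_dir' (mem_dir_iff_med.1 h)

theorem conv_dir (x y : X) : Conv (dir x y) := by
  intro a ha b hb z hz h
  rcases h.or a with h1 | h1
  · exact ha h1
  · exact not_btw_of_mem_dir ha hb (h1.trans_left hz)

theorem conv_compl_dir (x y : X) : Conv (dir x y)ᶜ := by
  intro a ha b hb z hz
  have ha' : Btw y x a := not_not.1 ha
  have hb' : Btw y x b := not_not.1 hb
  refine not_not.2 ?_
  rcases hz.or x with h1 | h1
  · exact ha'.trans_right' h1.symm
  · exact hb'.trans_right' h1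

theorem Dirs.eq_dir {δ : Set X} (h : δ ∈ Dirs x) (hy : y ∈ δ) : δ = dir x y := by
  obtain ⟨z, _, rfl⟩ := h
  exact (dir_eq_of_mem hy).symm

theorem Dirs.eq_of_mem {δ δ' : Set X} (h : δ ∈ Dirs x) (h' : δ' ∈ Dirs x) (hy : y ∈ δ)
    (hy' : y ∈ δ') : δ = δ' := (Dirs.eq_dir h hy).trans (Dirs.eq_dir h' hy').symm

theorem Dirs.btw_of_ne {δ δ' : Set X} (h : δ ∈ Dirs x) (h' : δ' ∈ Dirs x) (hne : δ ≠ δ')
    (ha : a ∈ δ) (hb : b ∈ δ') : Btw a x b := by
  by_contra hn
  exact hne (Dirs.eq_of_mem h h' ((Dirs.eq_dir h ha).symm ▸ hn) hb)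

theorem Dirs.conv {δ : Set X} (h : δ ∈ Dirs x) : Conv δ := by
  obtain ⟨z, _, rfl⟩ := h
  exact conv_dir _ _

theorem Dirs.conv_compl {δ : Set X} (h : δ ∈ Dirs x) : Conv δᶜ := by
  obtain ⟨z, _, rfl⟩ := h
  exact conv_compl_dir _ _

/-- Forward directions along a segment decrease. -/
theorem Btw.dir_subset (h : Btw x y z) (hne : y ≠ x) : dir y z ⊆ dir x z := by
  intro w hw hb
  exact hw (h.symm.trans_left hb)

/-- A direction at `y` other than the one of `x` lies in the direction of `y` at `x`. -/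
theorem compl_dir_subset (hne : y ≠ x) : (dir y x)ᶜ ⊆ dir x y := fun _ hw =>
  Btw.mem_dir (not_not.1 hw) hne

/-- The base point separates a direction from its complement. -/
theorem Dirs.gate {δ : Set X} (h : δ ∈ Dirs x) (ha : a ∈ δ) (hb : b ∉ δ) : Btw a x b := by
  obtain ⟨z, _, rfl⟩ := h
  exact btw_of_mem_dir ha hb

/-- A direction determines its base point. -/
theorem Dirs.base_eq {δ : Set X} (h : δ ∈ Dirs x) (h' : δ ∈ Dirs y) : x = y := by
  obtain ⟨a, ha⟩ := Dirs.nonempty h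
  exact (Dirs.gate h ha (Dirs.not_mem h')).antisymm (Dirs.gate h' ha (Dirs.not_mem h))

theorem Tri.med_eq (h : Tri x a b c) : med a b c = x :=
  (eq_med h.2.2.2.1 h.2.2.2.2.1 h.2.2.2.2.2).symm

theorem tri_med (h1 : a ≠ med a b c) (h2 : b ≠ med a b c) (h3 : c ≠ med a b c) :
    Tri (med a b c) a b c := ⟨h1, h2, h3, med_btw12 _ _ _, med_btw23 _ _ _, med_btw13 _ _ _⟩

/-- Three points none of which lies between the two others span a tripod. -/
theorem tri_of_not_btw (h1 : ¬ Btw b a c) (h2 : ¬ Btw a b c) (h3 : ¬ Btw a c b) :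
    Tri (med a b c) a b c :=
  tri_med (fun h => h1 (med_eq_left_iff.1 h.symm)) (fun h => h2 (med_eq_mid_iff.1 h.symm))
    fun h => h3 (med_eq_right_iff.1 h.symm)

theorem Tri.of_mem_dir {a' : X} (h : Tri x a b c) (ha : a' ∈ dir x a) : Tri x a' b c :=
  ⟨ne_of_mem_dir ha, h.2.1, h.2.2.1, btw_of_mem_dir ha (not_not.2 h.2.2.2.1), h.2.2.2.2.1,
    btw_of_mem_dir ha (not_not.2 h.2.2.2.2.2)⟩

theorem Tri.of_mem_dir3 {a' b' c' : X} (h : Tri x a b c) (ha : a' ∈ dir x a) (hb : b' ∈ dir x b)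
    (hc : c' ∈ dir x c) : Tri x a' b' c' :=
  (((h.of_mem_dir ha).rot.of_mem_dir hb).rot.of_mem_dir hc).rot

theorem tri_iff_dir : Tri x a b c ↔ a ≠ x ∧ b ≠ x ∧ c ≠ x ∧ dir x a ≠ dir x b ∧
    dir x b ≠ dir x c ∧ dir x a ≠ dir x c :=
  ⟨fun h => ⟨h.1, h.2.1, h.2.2.1, (dir_ne_iff h.1).2 h.2.2.2.1, (dir_ne_iff h.2.1).2 h.2.2.2.2.1,
      (dir_ne_iff h.1).2 h.2.2.2.2.2⟩,
    fun h => ⟨h.1, h.2.1, h.2.2.1, (dir_ne_iff h.1).1 h.2.2.2.1, (dir_ne_iff h.2.1).1 h.2.2.2.2.1,
      (dir_ne_iff h.1).1 h.2.2.2.2.2⟩⟩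

/-- At a tripod point one of the three legs avoids two given directions. -/
theorem Tri.exists_away (h : Tri x a b c) (y z : X) :
    ∃ w, (w = a ∨ w = b ∨ w = c) ∧ w ≠ x ∧ Btw y x w ∧ Btw z x w := by
  by_cases h1 : Btw y x a ∧ Btw z x a
  · exact ⟨a, by simp, h.1, h1⟩
  by_cases h2 : Btw y x b ∧ Btw z x b
  · exact ⟨b, by simp, h.2.1, h2⟩
  refine ⟨c, by simp, h.2.2.1, ?_⟩
  have hab := h.2.2.2.1
  have hbc := h.2.2.2.2.1
  have hac := h.2.2.2.2.2
  have k : ∀ {u s t : X}, Btw s x t → ¬ Btw u x s → Btw u x t := fun h1 h2 =>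
    (h1.or _).elim (fun h3 => absurd h3.symm h2) id
  rcases not_and_or.1 h1 with h1 | h1 <;> rcases not_and_or.1 h2 with h2 | h2
  · exact absurd (k hab h1) h2
  · exact ⟨k hac h1, k hbc h2⟩
  · exact ⟨k hbc h2, k hac h1⟩
  · exact absurd (k hab h1) h2

/-- A set without branch points is linear. -/
theorem linear_of_Br_empty {C : Set X} (h : Br C = ∅) (ha : a ∈ C) (hb : b ∈ C) (hc : c ∈ C) :
    Btw b a c ∨ Btw a b c ∨ Btw a c b := by
  by_contra hn
  push Not at hn
  have : med a b c ∈ Br C := ⟨a, ha, b, hb, c, hc, tri_of_not_btw hn.1 hn.2.1 hn.2.2⟩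
  rw [h] at this
  exact this

/-! ### Subspaces -/

theorem MedCl.isTree {C : Set X} (hC : MedCl C) : IsTree C where
  four x y z w := IsTree.four (x : X) y z w
  ex_med x y z := ⟨⟨med x y z, hC.med_mem x.2 y.2 z.2⟩, med_btw12 (x : X) y z, med_btw23 (x : X) y z,
    med_btw13 (x : X) y z⟩

theorem coe_med {C : Set X} [IsTree C] (x y z : C) : ((med x y z : C) : X) = med (x : X) y z :=
  eq_med (med_btw12 x y z) (med_btw23 x y z) (med_btw13 x y z)

/-- Maps that preserve betweenness preserve medians. -/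
theorem map_med {Y : Type} [MetricSpace Y] [IsTree Y] {f : X → Y}
    (hf : ∀ x y z, Btw x y z → Btw (f x) (f y) (f z)) (x y z : X) :
    f (med x y z) = med (f x) (f y) (f z) :=
  eq_med (hf _ _ _ (med_btw12 x y z)) (hf _ _ _ (med_btw23 x y z)) (hf _ _ _ (med_btw13 x y z))

/-- An injective map that preserves betweenness reflects it. -/
theorem btw_of_map {Y : Type} [MetricSpace Y] [IsTree Y] {f : X → Y}
    (hf : ∀ x y z, Btw x y z → Btw (f x) (f y) (f z)) (hi : Function.Injective f)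
    (h : Btw (f x) (f y) (f z)) : Btw x y z :=
  med_eq_mid_iff.1 (hi ((map_med hf x y z).trans h.med_eq))

end

end Pool.Agent.MP_3ce0a0_al.Q2T1
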