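import Pool.Agent.MP_3ce0a0_al.Q2T1.Act

/-!
Elliptic and hyperbolic isometries of a tree-space.
-/

set_option autoImplicit false

open Pointwise

namespace Pool.Agent.MP_3ce0a0_al.Q2T1

noncomputable section

variable {X : Type} [MetricSpace X] {G : Type} [Group G] [MulAction G X] [IsIsometricSMul G X]
  {g h : G} {x y z p q : X} {H : Subgroup G}

theorem dist_inv_smul (g : G) (x : X) : dist (g⁻¹ • x) x = dist x (g • x) := by
  rw [← dist_smul g, smul_inv_smul]

theorem dist_inv_smul' (g : G) (x : X) : dist x (g⁻¹ • x) = dist x (g • x) := by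
  rw [dist_comm, dist_inv_smul]

theorem dist_smul_le (g : G) (x y : X) : dist x (g • x) ≤ dist y (g • y) + 2 * dist x y := by
  have h1 := dist_triangle4 x y (g • y) (g • x)
  rw [dist_smul, dist_comm y x] at h1
  linarith

theorem dist_mul_smul_le (g h : G) (x : X) :
    dist x ((g * h) • x) ≤ dist x (g • x) + dist x (h • x) := by
  have h1 := dist_triangle x (g • x) ((g * h) • x)
  rwa [mul_smul, dist_smul, ← mul_smul] at h1

omit [IsIsometricSMul G X] in
theorem tl_le (g : G) (x : X) : tl X g ≤ dist x (g • x) :=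
  ciInf_le ⟨0, by rintro _ ⟨y, rfl⟩; exact dist_nonneg⟩ x

omit [IsIsometricSMul G X] in
theorem tl_nonneg (g : G) : 0 ≤ tl X g := Real.iInf_nonneg fun _ => dist_nonneg

omit [IsIsometricSMul G X] in
theorem tl_eq_of_min (hx : ∀ y : X, dist x (g • x) ≤ dist y (g • y)) : tl X g = dist x (g • x) :=
  haveI : Nonempty X := ⟨x⟩
  (tl_le g x).antisymm (le_ciInf hx)

omit [IsIsometricSMul G X] in
theorem Ell.tl_eq (h : Ell X g) : tl X g = 0 := by
  obtain ⟨x, hx⟩ := h
  exact ((tl_le g x).trans (by rw [hx, dist_self])).antisymm (tl_nonneg g)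

theorem tl_inv (g : G) : tl X g⁻¹ = tl X g := by simp only [tl, dist_inv_smul']

theorem tl_conj (k g : G) : tl X (k * g * k⁻¹) = tl X g := by
  unfold tl
  rw [← (MulAction.toPerm k : X ≃ X).iInf_comp]
  simp only [MulAction.toPerm_apply, mul_smul, inv_smul_smul, dist_smul]

theorem mem_Ch_iff_dist : x ∈ Ch X g ↔ dist x (g • g • x) = 2 * dist x (g • x) := by
  rw [mem_Ch_iff_btw, Btw, dist_smul]
  constructor <;> intro h <;> linarith

theorem hyp_iff_dist : Hyp X g ↔ ∃ x : X, g • x ≠ x ∧ dist x (g • g • x) = 2 * dist x (g • x) := by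
  simp only [← mem_Ch_iff_dist]
  rfl

variable [IsTree X]

/-- The points moved by at most `r` form a convex set. -/
theorem conv_moved (g : G) (r : ℝ) : Conv {x : X | dist x (g • x) ≤ r} := fun p hp q hq z hz =>
  (dist_le_max_of_btw hz (dist_smul g p z).symm (dist_smul g z q).symm).trans (max_le hp hq)

theorem conv_fix (g : G) : Conv {x : X | g • x = x} := by
  have : {x : X | g • x = x} = {x : X | dist x (g • x) ≤ 0} := by
    ext x
    simp [eq_comm]
  rw [this]
  exact conv_moved g 0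

theorem Btw.fix (h : Btw p z q) (hp : g • p = p) (hq : g • q = q) : g • z = z :=
  conv_fix g p hp q hq z h

theorem conv_Fix (H : Subgroup G) : Conv (Fix X H) :=
  fun _ hp _ hq _ hz h hh => hz.fix (hp h hh) (hq h hh)

/-- The median of three consecutive points of an orbit, first case. -/
theorem med_orbit_ge (hd : dist y (g • y) ≤ dist y (g • g • y)) :
    med (g⁻¹ • y) y (g • y) ∈ Ch X g ∧
      Btw y (med (g⁻¹ • y) y (g • y)) (g • med (g⁻¹ • y) y (g • y)) ∧
      dist (med (g⁻¹ • y) y (g • y)) (g • med (g⁻¹ • y) y (g • y)) =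
        dist y (g • g • y) - dist y (g • y) := by
  have h12 := med_btw12 (g⁻¹ • y) y (g • y)
  have h23 := med_btw23 (g⁻¹ • y) y (g • y)
  have h13 := med_btw13 (g⁻¹ • y) y (g • y)
  generalize med (g⁻¹ • y) y (g • y) = m at *
  have hb : dist (g⁻¹ • y) (g • y) = dist y (g • g • y) := by rw [← dist_smul g, smul_inv_smul]
  have d1 : dist y m = dist y (g • y) - dist y (g • g • y) / 2 := by
    rw [dist_of_btw3 h12.symm h13 h23, dist_inv_smul', hb]
    ring
  have k1 : Btw y (g • m) (g • y) := by simpa only [smul_inv_smul] using h12.smul g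
  have k2 : Btw y (g⁻¹ • m) (g⁻¹ • y) := by simpa only [inv_smul_smul] using (h23.smul g⁻¹).symm
  have d2 : dist y (g • m) = dist y (g • g • y) / 2 := by
    have := k1
    rw [Btw, dist_smul, dist_comm m y] at this
    linarith
  have d3 : dist y (g⁻¹ • m) = dist y (g • g • y) / 2 := by
    have := k2
    rw [Btw, dist_smul, dist_comm m y, dist_inv_smul'] at this
    linarith
  have b1 : Btw y m (g • m) := h23.of_dist_le k1 (by linarith)
  have b2 : Btw y m (g⁻¹ • m) := h12.symm.of_dist_le k2 (by linarith)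
  refine ⟨?_, b1, ?_⟩
  · exact ((b2.trans_left' k2).symm.trans_left' h13).trans_right' (b1.trans_left' k1)
  · unfold Btw at b1
    linarith

/-- The median of three consecutive points of an orbit, second case. -/
theorem med_orbit_le (hd : dist y (g • g • y) ≤ dist y (g • y)) :
    g • g • med (g⁻¹ • y) y (g • y) = med (g⁻¹ • y) y (g • y) := by
  have h12 := med_btw12 (g⁻¹ • y) y (g • y)
  have h23 := med_btw23 (g⁻¹ • y) y (g • y)
  have h13 := med_btw13 (g⁻¹ • y) y (g • y)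
  generalize med (g⁻¹ • y) y (g • y) = m at *
  have hb : dist (g⁻¹ • y) (g • y) = dist y (g • g • y) := by rw [← dist_smul g, smul_inv_smul]
  have d1 : dist y m = dist y (g • y) - dist y (g • g • y) / 2 := by
    rw [dist_of_btw3 h12.symm h13 h23, dist_inv_smul', hb]
    ring
  have k1 : Btw y (g • m) (g • y) := by simpa only [smul_inv_smul] using h12.smul g
  have k2 : Btw y (g⁻¹ • m) (g⁻¹ • y) := by simpa only [inv_smul_smul] using (h23.smul g⁻¹).symm
  have d2 : dist y (g • m) = dist y (g • g • y) / 2 := by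
    have := k1
    rw [Btw, dist_smul, dist_comm m y] at this
    linarith
  have d3 : dist y (g⁻¹ • m) = dist y (g • g • y) / 2 := by
    have := k2
    rw [Btw, dist_smul, dist_comm m y, dist_inv_smul'] at this
    linarith
  have b1 : Btw y (g • m) m := k1.of_dist_le h23 (by linarith)
  have b2 : Btw y (g⁻¹ • m) m := k2.of_dist_le h12.symm (by linarith)
  rw [b1.eq_of_dist b2 (d2.trans d3.symm), smul_inv_smul]

theorem hyp_of_dist_lt (hd : dist y (g • y) < dist y (g • g • y)) : Hyp X g := by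
  obtain ⟨h1, -, h3⟩ := med_orbit_ge hd.le
  refine hyp_iff.2 ⟨_, h1, fun e => ?_⟩
  rw [e, dist_self] at h3
  linarith

theorem fix_med_of_dist_eq (hd : dist y (g • g • y) = dist y (g • y)) :
    g • med (g⁻¹ • y) y (g • y) = med (g⁻¹ • y) y (g • y) := by
  have h3 := (med_orbit_ge hd.ge).2.2
  rw [hd, sub_self, dist_eq_zero] at h3
  exact h3.symm

/-- An isometry is hyperbolic, or its square has a fixed point. -/
theorem hyp_or_sq_fix (g : G) (y : X) : Hyp X g ∨ ∃ m : X, g • g • m = m :=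
  (lt_or_ge (dist y (g • y)) (dist y (g • g • y))).imp hyp_of_dist_lt fun h => ⟨_, med_orbit_le h⟩

theorem trichotomy [Nonempty X] (g : G) :
    Ell X g ∨ Hyp X g ∨ ∃ m : X, g • m ≠ m ∧ g • g • m = m := by
  rcases hyp_or_sq_fix g (Classical.arbitrary X) with h | ⟨m, hm⟩
  · exact Or.inr (Or.inl h)
  · by_cases e : g • m = m
    · exact Or.inl ⟨m, e⟩
    · exact Or.inr (Or.inr ⟨m, e, hm⟩)

theorem dist_pow_smul_of_mem_Ch (hx : x ∈ Ch X g) (n : ℕ) :
    dist x (g ^ n • x) = n * dist x (g • x) := by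
  by_cases e : g • x = x
  · rw [pow_smul_of_fix e, e, dist_self, mul_zero]
  have key : ∀ n : ℕ, Btw x (g ^ n • x) (g ^ (n + 1) • x) := by
    intro n
    induction n with
    | zero => simp
    | succ n ih =>
      have h1 := (mem_Ch_iff_btw.1 hx).smul (g ^ n)
      rw [← mul_smul, ← mul_smul, ← mul_smul, ← pow_succ, ← pow_succ] at h1
      refine ih.concat_right h1 fun e' => e ?_
      rw [pow_succ, mul_smul] at e'
      exact (smul_left_cancel _ e').symm
  induction n with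
  | zero => simp
  | succ n ih =>
    have := key n
    rw [Btw, pow_succ, mul_smul, dist_smul, ← mul_smul, ← pow_succ] at this
    rw [← this, ih]
    push_cast
    ring

/-- Two points with linearly growing orbits grow at the same speed. -/
theorem slope_le {a b c : ℝ} (h : ∀ n : ℕ, n * a ≤ n * b + c) : a ≤ b := by
  by_contra hn
  obtain ⟨n, hn'⟩ := exists_nat_gt (c / (a - b))
  have h1 := h n
  rw [div_lt_iff₀ (by linarith)] at hn'
  nlinarith

theorem dist_le_of_mem_Ch (hx : x ∈ Ch X g) (y : X) : dist x (g • x) ≤ dist y (g • y) := by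
  refine slope_le (c := 2 * dist x y) fun n => ?_
  have h1 := dist_smul_le (g ^ n) x y
  rw [dist_pow_smul_of_mem_Ch hx] at h1
  have h2 : dist y (g ^ n • y) ≤ n * dist y (g • y) := by
    clear h1
    induction n with
    | zero => simp
    | succ n ih =>
      have := dist_mul_smul_le (g ^ n) g y
      rw [← pow_succ] at this
      push_cast
      linarith
  linarith

theorem tl_eq_of_mem_Ch (hx : x ∈ Ch X g) : tl X g = dist x (g • x) :=
  tl_eq_of_min (dist_le_of_mem_Ch hx)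

theorem dist_pow_smul (hx : x ∈ Ch X g) (n : ℕ) : dist x (g ^ n • x) = n * tl X g := by
  rw [tl_eq_of_mem_Ch hx, dist_pow_smul_of_mem_Ch hx]

theorem dist_zpow_smul (hx : x ∈ Ch X g) (n : ℤ) : dist x (g ^ n • x) = |(n : ℝ)| * tl X g := by
  obtain ⟨k, rfl | rfl⟩ := n.eq_nat_or_neg
  · rw [zpow_natCast, dist_pow_smul hx]
    simp
  · rw [zpow_neg, dist_inv_smul', zpow_natCast, dist_pow_smul hx]
    simp

theorem dist_zpow_zpow (hx : x ∈ Ch X g) (m n : ℤ) :
    dist (g ^ m • x) (g ^ n • x) = |(n : ℝ) - m| * tl X g := by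
  have : g ^ n • x = g ^ m • g ^ (n - m) • x := by
    rw [← mul_smul, ← zpow_add]
    simp
  rw [this, dist_smul, dist_zpow_smul hx]
  push_cast
  rfl

theorem btw_zpow (hx : x ∈ Ch X g) {i j k : ℤ} (h1 : i ≤ j) (h2 : j ≤ k) :
    Btw (g ^ i • x) (g ^ j • x) (g ^ k • x) := by
  have e1 : (i : ℝ) ≤ j := by exact_mod_cast h1
  have e2 : (j : ℝ) ≤ k := by exact_mod_cast h2
  rw [Btw, dist_zpow_zpow hx, dist_zpow_zpow hx, dist_zpow_zpow hx, abs_of_nonneg (by linarith),
    abs_of_nonneg (by linarith), abs_of_nonneg (by linarith)]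
  ring

theorem Hyp.tl_pos (h : Hyp X g) : 0 < tl X g := by
  obtain ⟨x, h1, h2⟩ := hyp_iff.1 h
  rw [tl_eq_of_mem_Ch h1]
  exact dist_pos.2 h2.symm

theorem Hyp.not_ell (h : Hyp X g) : ¬ Ell X g := fun h' => h.tl_pos.ne' h'.tl_eq

theorem Ell.not_hyp (h : Ell X g) : ¬ Hyp X g := fun h' => h'.not_ell h

theorem Hyp.smul_ne (h : Hyp X g) (x : X) : g • x ≠ x := fun e => h.not_ell ⟨x, e⟩

theorem Hyp.ne_one (h : Hyp X g) : g ≠ 1 := by
  rintro rfl
  obtain ⟨x, h1, -⟩ := h
  exact h1 (one_smul _ _)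

theorem Ell.mem_Ch (h : Ell X g) : x ∈ Ch X g ↔ g • x = x :=
  ⟨fun hx => by
    have := tl_eq_of_mem_Ch hx
    rw [h.tl_eq] at this
    exact (dist_eq_zero.1 this.symm).symm, mem_Ch_of_fix⟩

theorem Ell.Ch_eq (h : Ell X g) : Ch X g = {x | g • x = x} := Set.ext fun _ => h.mem_Ch

theorem mem_Ch_zpow (hx : x ∈ Ch X g) (n : ℤ) : x ∈ Ch X (g ^ n) := by
  have key : ∀ k : ℕ, x ∈ Ch X (g ^ (k : ℤ)) := fun k => by
    have := btw_zpow hx (show -(k : ℤ) ≤ 0 by omega) (show (0 : ℤ) ≤ k by omega)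
    rwa [zpow_zero, one_smul, zpow_neg] at this
  obtain ⟨k, rfl | rfl⟩ := n.eq_nat_or_neg
  · exact key k
  · rw [zpow_neg, Ch_inv]
    exact key k

theorem mem_Ch_pow (hx : x ∈ Ch X g) (n : ℕ) : x ∈ Ch X (g ^ n) := by
  simpa using mem_Ch_zpow hx n

theorem tl_zpow (h : Ell X g ∨ Hyp X g) (n : ℤ) : tl X (g ^ n) = |(n : ℝ)| * tl X g := by
  obtain ⟨x, hx⟩ := Ch_nonempty h
  rw [tl_eq_of_mem_Ch (mem_Ch_zpow hx n), dist_zpow_smul hx]

theorem tl_pow (h : Ell X g ∨ Hyp X g) (n : ℕ) : tl X (g ^ n) = n * tl X g := by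
  simpa using tl_zpow h n

theorem hyp_of_tl_pos (hx : x ∈ Ch X g) (h : 0 < tl X g) : Hyp X g :=
  hyp_iff.2 ⟨x, hx, fun e => h.ne' (Ell.tl_eq ⟨x, e⟩)⟩

theorem Hyp.zpow (h : Hyp X g) {n : ℤ} (hn : n ≠ 0) : Hyp X (g ^ n) := by
  obtain ⟨x, hx⟩ := Ch_nonempty (Or.inr h)
  refine hyp_of_tl_pos (mem_Ch_zpow hx n) ?_
  rw [tl_zpow (Or.inr h)]
  exact mul_pos (abs_pos.2 (by exact_mod_cast hn)) h.tl_pos

theorem Hyp.pow (h : Hyp X g) {n : ℕ} (hn : n ≠ 0) : Hyp X (g ^ n) := by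
  simpa using h.zpow (n := n) (by exact_mod_cast hn)

theorem Hyp.of_zpow {n : ℤ} (h : Hyp X (g ^ n)) : Hyp X g := by
  obtain ⟨x, -⟩ := id h
  rcases hyp_or_sq_fix g x with h1 | ⟨m, hm⟩
  · exact h1
  · exfalso
    refine (h.zpow (n := 2) two_ne_zero).smul_ne m ?_
    rw [← zpow_mul, mul_comm, zpow_mul]
    apply zpow_smul_of_fix
    rwa [zpow_two, mul_smul]

theorem Hyp.of_pow {n : ℕ} (h : Hyp X (g ^ n)) : Hyp X g :=
  Hyp.of_zpow (n := n) (by simpa using h)

theorem Ell.of_zpow {n : ℤ} (h : Ell X (g ^ n)) (hn : n ≠ 0) (hd : Ell X g ∨ Hyp X g) : Ell X g :=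
  hd.elim id fun h' => absurd h (h'.zpow hn).not_ell

theorem Ell.of_pow {n : ℕ} (h : Ell X (g ^ n)) (hn : n ≠ 0) (hd : Ell X g ∨ Hyp X g) : Ell X g :=
  hd.elim id fun h' => absurd h (h'.pow hn).not_ell

theorem Hyp.not_isOfFinOrder (h : Hyp X g) : ¬ IsOfFinOrder g := by
  intro hf
  obtain ⟨n, hn, e⟩ := isOfFinOrder_iff_pow_eq_one.1 hf
  exact (h.pow hn.ne').ne_one e

theorem ell_of_isOfFinOrder (hd : Ell X g ∨ Hyp X g) (h : IsOfFinOrder g) : Ell X g :=
  hd.elim id fun h' => absurd h h'.not_isOfFinOrder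

theorem ell_iff_tl (hd : Ell X g ∨ Hyp X g) : Ell X g ↔ tl X g = 0 :=
  ⟨Ell.tl_eq, fun h => hd.elim id fun h' => absurd h h'.tl_pos.ne'⟩

theorem hyp_iff_tl (hd : Ell X g ∨ Hyp X g) : Hyp X g ↔ 0 < tl X g :=
  ⟨Hyp.tl_pos, fun h => hd.elim (fun h' => absurd h'.tl_eq h.ne') id⟩

/-- An element with a bounded orbit is not hyperbolic. -/
theorem Hyp.unbounded (h : Hyp X g) (y : X) (c : ℝ) : ∃ n : ℕ, c < dist y (g ^ n • y) := by
  obtain ⟨n, hn⟩ := exists_nat_gt (c / tl X g)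
  rw [div_lt_iff₀ h.tl_pos, ← tl_pow (Or.inr h)] at hn
  exact ⟨n, hn.trans_le (tl_le _ y)⟩

theorem Hyp.dist_lt (h : Hyp X g) (y : X) : dist y (g • y) < dist y (g • g • y) := by
  by_contra hn
  refine (h.pow two_ne_zero).smul_ne (med (g⁻¹ • y) y (g • y)) ?_
  rw [pow_two, mul_smul]
  exact med_orbit_le (not_lt.1 hn)

/-- An element that fixes `x` fixes the median of `x`, `y` and the image of `y`. -/
theorem fix_med (hx : g • x = x) (y : X) : g • med x y (g • y) = med x y (g • y) := by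
  have h1 := (med_btw12 x y (g • y)).smul g
  rw [hx] at h1
  refine h1.eq_of_dist (med_btw13 x y (g • y)) ?_
  conv_lhs => rw [← hx, dist_smul, hx]

theorem ex_proj_aux (hd : Ell X g ∨ Hyp X g) (y : X) :
    ∃ p ∈ Ch X g, dist y (g • y) = tl X g + 2 * dist y p := by
  rcases hd with ⟨x, hx⟩ | h
  · refine ⟨med x y (g • y), mem_Ch_of_fix (fix_med hx y), ?_⟩
    have h1 := med_btw23 x y (g • y)
    have h2 := dist_smul g (med x y (g • y)) y
    rw [fix_med hx y, dist_comm _ y] at h2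
    rw [Ell.tl_eq ⟨x, hx⟩]
    unfold Btw at h1
    linarith
  · obtain ⟨h1, -, h3⟩ := med_orbit_ge (h.dist_lt y).le
    refine ⟨_, h1, ?_⟩
    rw [tl_eq_of_mem_Ch h1, h3, med_comm12, dist_med, dist_inv_smul', ← dist_smul g (g⁻¹ • y),
      smul_inv_smul]
    ring

theorem mem_Ch_iff_tl (hd : Ell X g ∨ Hyp X g) : x ∈ Ch X g ↔ dist x (g • x) ≤ tl X g := by
  refine ⟨fun h => (tl_eq_of_mem_Ch h).ge, fun h => ?_⟩
  obtain ⟨p, hp, e⟩ := ex_proj_aux hd x
  have : x = p := dist_le_zero.1 (by linarith)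
  exact this ▸ hp

theorem conv_Ch (g : G) : Conv (Ch X g) := by
  intro p hp
  have hd : Ell X g ∨ Hyp X g := by
    by_cases e : g • p = p
    · exact Or.inl ⟨p, e⟩
    · exact Or.inr ⟨p, e, hp⟩
  have : Ch X g = {x : X | dist x (g • x) ≤ tl X g} := Set.ext fun _ => mem_Ch_iff_tl hd
  rw [this] at hp ⊢
  exact conv_moved g _ p hp

theorem ell_or_hyp_of_mem_Ch (hp : p ∈ Ch X g) : Ell X g ∨ Hyp X g := by
  by_cases e : g • p = p
  · exact Or.inl ⟨p, e⟩
  · exact Or.inr ⟨p, e, hp⟩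

theorem gated_Ch (hd : Ell X g ∨ Hyp X g) : Gated (Ch X g) := by
  intro y
  obtain ⟨p, hp, e⟩ := ex_proj_aux hd y
  refine ⟨p, hp, (conv_Ch g).gate_of_dist hp fun z hz => ?_⟩
  have := dist_smul_le g y z
  rw [← tl_eq_of_mem_Ch hz] at this
  linarith

/-- The displacement of a point in terms of its projection. -/
theorem IsGate.dist_smul (hp : IsGate (Ch X g) y p) : dist y (g • y) = tl X g + 2 * dist y p := by
  obtain ⟨q, hq, e⟩ := ex_proj_aux (ell_or_hyp_of_mem_Ch hp.1) y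
  have h1 := dist_smul_le g y p
  rw [← tl_eq_of_mem_Ch hp.1] at h1
  linarith [hp.dist_le hq]

theorem IsGate.smul_Ch (hp : IsGate (Ch X g) y p) (hc : Commute h g) :
    IsGate (Ch X g) (h • y) (h • p) := hp.smul_of_inv fun _ => smul_mem_Ch_of_commute hc

/-- The geodesic from `y` to its image runs through the projection and its image. -/
theorem IsGate.btw_smul (hp : IsGate (Ch X g) y p) :
    Btw y p (g • p) ∧ Btw p (g • p) (g • y) ∧ Btw y p (g • y) ∧ Btw y (g • p) (g • y) := by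
  have h1 := hp.2 _ (smul_mem_Ch.2 hp.1)
  have h2 := ((hp.smul_Ch (Commute.refl g)).2 p hp.1).symm
  have h3 : Btw y p (g • y) := by
    have e := hp.dist_smul
    rw [tl_eq_of_mem_Ch hp.1] at e
    have h2' := h2
    rw [Btw, _root_.dist_smul, dist_comm p y] at h2'
    unfold Btw
    linarith
  exact ⟨h1, h2, h3, h3.trans_right h2⟩

theorem IsGate.btw_inv_smul (hp : IsGate (Ch X g) y p) : Btw y p (g⁻¹ • y) :=
  (IsGate.btw_smul (g := g⁻¹) (by rwa [Ch_inv])).2.2.1

/-- The projection to the characteristic set. -/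
theorem ex_proj (hd : Ell X g ∨ Hyp X g) (y : X) : ∃ p, IsGate (Ch X g) y p ∧
    dist y (g • y) = tl X g + 2 * dist y p ∧ Btw y p (g • y) := by
  obtain ⟨p, hp⟩ := gated_Ch hd y
  exact ⟨p, hp, hp.dist_smul, hp.btw_smul.2.2.1⟩

theorem Hyp.isGate_med (h : Hyp X g) (y : X) : IsGate (Ch X g) y (med (g⁻¹ • y) y (g • y)) := by
  obtain ⟨p, hp⟩ := gated_Ch (Or.inr h) y
  have h1 := (med_orbit_ge (h.dist_lt y).le).1
  have h2 : Btw (g⁻¹ • y) p (g • y) := by
    have a1 := (IsGate.btw_smul (g := g⁻¹) (by rwa [Ch_inv] : IsGate (Ch X g⁻¹) y p)).2.1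
    have a2 := hp.btw_smul.2.1
    have a3 : Btw (g⁻¹ • y) p (g • p) :=
      a1.symm.concat_right hp.1 (h.inv.smul_ne p)
    exact a3.concat_left a2 (h.smul_ne p).symm
  rw [← eq_med hp.btw_inv_smul.symm hp.btw_smul.2.2.1 h2]
  exact hp

theorem isGate_fix_med (hx : g • x = x) (y : X) : IsGate (Ch X g) y (med x y (g • y)) := by
  obtain ⟨p, hp⟩ := gated_Ch (Or.inl ⟨x, hx⟩) y
  have h1 := hp.2 x (mem_Ch_of_fix hx)
  have h2 := h1.smul g
  rw [hx, (Ell.mem_Ch ⟨x, hx⟩).1 hp.1] at h2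
  rw [← eq_med h1.symm hp.btw_smul.2.2.1 h2.symm]
  exact hp

theorem Hyp.dist_zpow (h : Hyp X g) (hp : IsGate (Ch X g) y p) {n : ℤ} (hn : n ≠ 0) :
    dist y (g ^ n • y) = |(n : ℝ)| * tl X g + 2 * dist y p := by
  have h1 := hp.smul_Ch ((Commute.refl g).zpow_left n)
  have h2 := (hp.btw_of_ne h1 ((h.zpow hn).smul_ne p).symm).2.2
  rw [h2, dist_smul, dist_zpow_smul hp.1, dist_comm p y]
  ring

theorem Hyp.Ch_zpow (h : Hyp X g) {n : ℤ} (hn : n ≠ 0) : Ch X (g ^ n) = Ch X g := by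
  ext y
  refine ⟨fun hy => ?_, fun hy => mem_Ch_zpow hy n⟩
  obtain ⟨p, hp⟩ := gated_Ch (Or.inr h) y
  have h1 := h.dist_zpow hp hn
  rw [← tl_eq_of_mem_Ch hy, tl_zpow (Or.inr h)] at h1
  have : y = p := dist_le_zero.1 (by linarith)
  exact this ▸ hp.1

theorem Hyp.Ch_pow (h : Hyp X g) {n : ℕ} (hn : n ≠ 0) : Ch X (g ^ n) = Ch X g := by
  simpa using h.Ch_zpow (n := n) (by exact_mod_cast hn)

/-- Powers of a hyperbolic element move every point at least as far. -/
theorem Hyp.dist_le_dist_zpow (h : Hyp X g) (y : X) {n : ℤ} (hn : n ≠ 0) :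
    dist y (g • y) ≤ dist y (g ^ n • y) := by
  obtain ⟨p, hp⟩ := gated_Ch (Or.inr h) y
  rw [h.dist_zpow hp hn, hp.dist_smul]
  have : (1 : ℝ) ≤ |(n : ℝ)| := by exact_mod_cast Int.one_le_abs hn
  nlinarith [h.tl_pos]

theorem Hyp.dist_le_dist_pow (h : Hyp X g) (y : X) {n : ℕ} (hn : n ≠ 0) :
    dist y (g • y) ≤ dist y (g ^ n • y) := by
  simpa using h.dist_le_dist_zpow y (n := n) (by exact_mod_cast hn)

/-- A non-empty convex set that `g` maps into itself meets the characteristic set. -/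
theorem Conv.meets_Ch {C : Set X} (hC : Conv C) (hd : Ell X g ∨ Hyp X g) (hy : y ∈ C)
    (hy' : g • y ∈ C) : ∃ p ∈ C, IsGate (Ch X g) y p := by
  obtain ⟨p, hp, -, hb⟩ := ex_proj hd y
  exact ⟨p, hC y hy _ hy' p hb, hp⟩

/-- If both ends of a long segment are moved little, its middle part is in the characteristic set. -/
theorem mem_Ch_of_moved (hd : Ell X g ∨ Hyp X g) (hz : Btw x z y)
    (hx : dist x (g • x) ≤ tl X g + 2 * dist x z) (hy : dist y (g • y) ≤ tl X g + 2 * dist y z) :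
    z ∈ Ch X g := by
  obtain ⟨p, hp, e1, -⟩ := ex_proj hd x
  obtain ⟨q, hq, e2, -⟩ := ex_proj hd y
  obtain ⟨r, hr⟩ := gated_Ch hd z
  by_contra hn
  have hne : r ≠ z := fun e => hn (e ▸ hr.1)
  have key : ∀ {u s : X}, IsGate (Ch X g) u s → dist u s ≤ dist u z → ¬ Btw u z r := by
    intro u s hs hle hb
    have h1 : IsGate (Ch X g) u r :=
      ⟨hr.1, fun w hw => hb.concat_right (hr.2 w hw) hne.symm⟩
    rw [hs.unique h1] at hle
    exact absurd (hb.dist_lt_left hne.symm) (not_lt.2 hle)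
  rcases hz.or r with h1 | h1
  · exact key hp (by linarith) h1
  · exact key hq (by linarith) h1.symm

end

end Pool.Agent.MP_3ce0a0_al.Q2T1
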