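import Pool.Agent.MP_3ce0a0_al.Q2T1.Isom

/-!
Products of isometries, Serre's lemma, fixed arcs, and the minimal subtree.
-/

set_option autoImplicit false

open Pointwise

namespace Pool.Agent.MP_3ce0a0_al.Q2T1

noncomputable section

variable {X : Type} [MetricSpace X] {G : Type} [Group G] [MulAction G X] [IsIsometricSMul G X]
  [IsTree X] {g h : G} {x y z p q : X} {H : Subgroup G}

/-- A bridge of positive length lies on the axis of the product. -/
theorem mul_of_bridge (hp : IsGate (Ch X g) q p) (hq : IsGate (Ch X h) p q) (hne : p ≠ q) :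
    Hyp X (g * h) ∧ p ∈ Ch X (g * h) ∧ q ∈ Ch X (g * h) ∧
      tl X (g * h) = tl X g + tl X h + 2 * dist p q ∧ Btw q p ((g * h) • p) := by
  have hq' : IsGate (Ch X h⁻¹) p q := by rwa [Ch_inv]
  have a1 : Btw (h⁻¹ • g⁻¹ • p) (h⁻¹ • p) (h⁻¹ • q) := (hp.2 _ (inv_smul_mem_Ch.2 hp.1)).symm.smul _
  have a2 : Btw (h⁻¹ • p) (h⁻¹ • q) p := hq'.btw_smul.2.2.2.symm
  have a3 : Btw (h⁻¹ • g⁻¹ • p) (h⁻¹ • q) p :=
    a1.concat_right a2 fun e => hne (smul_left_cancel _ e)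
  have a4 : Btw (h⁻¹ • g⁻¹ • p) q p := a3.trans_right hq'.btw_smul.1.symm
  have b0 : Btw p (g • p) (g • q) := hp.btw_smul.2.1
  have b1 : Btw (g • p) (g • q) (g • h • p) := hq.btw_smul.2.2.1.smul g
  have b2 : Btw p (g • q) (g • h • p) := b0.concat_right b1 fun e => hne (smul_left_cancel _ e)
  have b3 : p ≠ g • q := b0.ne_of_ne_right fun e => hne (smul_left_cancel _ e)
  have b4 : Btw q p (g • h • p) := hp.btw_smul.2.2.1.concat_left b2 b3
  have c1 : p ∈ Ch X (g * h) := by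
    rw [mem_Ch, mul_inv_rev, mul_smul, mul_smul]
    exact a4.concat_right b4 hne.symm
  have c2 : q ∈ Ch X (g * h) := by
    refine conv_Ch _ _ (inv_smul_mem_Ch.2 c1) p c1 q ?_
    rwa [mul_inv_rev, mul_smul]
  have c3 : tl X (g * h) = tl X g + tl X h + 2 * dist p q := by
    rw [tl_eq_of_mem_Ch c1, mul_smul, ← b2, ← b0, tl_eq_of_mem_Ch hp.1, dist_smul, dist_smul]
    have e := hq.dist_smul
    have e' := hq.btw_smul.2.2.1
    unfold Btw at e'
    linarith
  refine ⟨hyp_of_tl_pos c1 ?_, c1, c2, c3, by rwa [mul_smul]⟩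
  rw [c3]
  linarith [tl_nonneg (X := X) g, tl_nonneg (X := X) h, dist_pos.2 hne]

theorem ex_bridge (hg : Ell X g ∨ Hyp X g) (hh : Ell X h ∨ Hyp X h)
    (hd : ∀ x ∈ Ch X g, x ∉ Ch X h) :
    ∃ p q, IsGate (Ch X g) q p ∧ IsGate (Ch X h) p q ∧ p ≠ q := by
  obtain ⟨y, -⟩ := Ch_nonempty hg
  obtain ⟨p, q, hp, hq⟩ := (gated_Ch hg).bridge (gated_Ch hh) y
  exact ⟨p, q, hp, hq, fun e => hd p hp.1 (e ▸ hq.1)⟩

/-- Disjoint characteristic sets: the product is hyperbolic. -/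
theorem hyp_mul_of_disjoint (hg : Ell X g ∨ Hyp X g) (hh : Ell X h ∨ Hyp X h)
    (hd : ∀ x ∈ Ch X g, x ∉ Ch X h) : Hyp X (g * h) := by
  obtain ⟨p, q, hp, hq, hne⟩ := ex_bridge hg hh hd
  exact (mul_of_bridge hp hq hne).1

/-- Elliptic elements without common fixed point have a hyperbolic product. -/
theorem hyp_mul_of_ell (hg : Ell X g) (hh : Ell X h) (hd : ∀ x : X, g • x = x → h • x ≠ x) :
    Hyp X (g * h) :=
  hyp_mul_of_disjoint (Or.inl hg) (Or.inl hh) fun x h1 h2 => hd x (hg.mem_Ch.1 h1) (hh.mem_Ch.1 h2)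

theorem ex_common_fix (hg : Ell X g) (hh : Ell X h) (hn : ¬ Hyp X (g * h)) :
    ∃ x : X, g • x = x ∧ h • x = x := by
  by_contra hc
  exact hn (hyp_mul_of_ell hg hh fun x h1 h2 => hc ⟨x, h1, h2⟩)

/-- Serre's lemma for a finite generating set, inside a convex set. -/
theorem serre_finset (S : Finset G) (h1 : ∀ s ∈ S, Ell X s)
    (h2 : ∀ s ∈ S, ∀ t ∈ S, ¬ Hyp X (s * t)) {D : Set X} (hD : Conv D) (hy : y ∈ D)
    (hS : ∀ s ∈ S, s • y ∈ D) : ∃ x ∈ D, ∀ s ∈ S, s • x = x :=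
  helly_rel S (fun s => {x : X | s • x = x}) (fun s _ => conv_fix s)
    (fun s hs t ht => ex_common_fix (h1 s hs) (h1 t ht) (h2 s hs t ht)) D hD ⟨y, hy⟩ fun s hs => by
      obtain ⟨p, hp, hp'⟩ := hD.meets_Ch (Or.inl (h1 s hs)) hy (hS s hs)
      exact ⟨p, hp, (h1 s hs).mem_Ch.1 hp'.1⟩

/-- Serre's lemma inside an invariant convex set. -/
theorem serre_rel (hH : H.FG) (h : ∀ g ∈ H, Ell X g) {D : Set X} (hD : Conv D) (hne : D.Nonempty)
    (hI : Inv H D) : ∃ x ∈ D, x ∈ Fix X H := by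
  obtain ⟨S, rfl⟩ := hH
  obtain ⟨y, hy⟩ := hne
  have hs : ∀ s ∈ S, s ∈ Subgroup.closure (S : Set G) := fun s hs => Subgroup.subset_closure hs
  obtain ⟨x, hx, hx'⟩ := serre_finset S (fun s h' => h s (hs s h'))
    (fun s h1 t h2 => (h _ (Subgroup.mul_mem _ (hs s h1) (hs t h2))).not_hyp) hD hy
    fun s h' => hI s (hs s h') y hy
  exact ⟨x, hx, mem_Fix_closure.2 hx'⟩

/-- Serre's lemma. -/
theorem serre (hH : H.FG) (h : ∀ g ∈ H, Ell X g) : (Fix X H).Nonempty := by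
  obtain ⟨y, -⟩ := h 1 H.one_mem
  obtain ⟨x, -, hx⟩ := serre_rel hH h conv_univ ⟨y, trivial⟩ (inv_univ H)
  exact ⟨x, hx⟩

/-- A finitely generated group without fixed point has a hyperbolic element. -/
theorem ex_hyp (hH : H.FG) (hd : Dich X H) (hn : ∀ x : X, ∃ h ∈ H, h • x ≠ x) :
    ∃ g ∈ H, Hyp X g := by
  by_contra hc
  obtain ⟨x, hx⟩ := serre (X := X) hH fun g hg => (hd g hg).elim id fun h' => absurd ⟨g, hg, h'⟩ hc
  obtain ⟨k, hk, e⟩ := hn x
  exact e (hx k hk)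

theorem fix_or_hyp (hH : H.FG) (hd : Dich X H) : (Fix X H).Nonempty ∨ ∃ g ∈ H, Hyp X g := by
  by_cases hc : ∃ g ∈ H, Hyp X g
  · exact Or.inr hc
  · exact Or.inl (serre hH fun g hg => (hd g hg).elim id fun h' => absurd ⟨g, hg, h'⟩ hc)

/-- A finite group has a fixed point. -/
theorem fix_of_finite [Finite H] (hd : Dich X H) : (Fix X H).Nonempty := by
  refine serre ((Group.fg_iff_subgroup_fg H).1 inferInstance) fun g hg => ?_
  refine ell_of_isOfFinOrder (hd g hg) ?_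
  exact H.subtype.isOfFinOrder (isOfFinOrder_of_finite (⟨g, hg⟩ : H))

/-- A group with a fixed point has one in every non-empty invariant convex set. -/
theorem gated_Fix (hH : H.FG) (hx : x ∈ Fix X H) : Gated (Fix X H) := by
  obtain ⟨S, rfl⟩ := hH
  have key : ∀ S : Finset G, (∀ s ∈ S, s • x = x) → Gated {z : X | ∀ s ∈ S, s • z = z} := by
    classical
    intro S
    induction S using Finset.induction_on with
    | empty => exact fun _ y => ⟨y, isGate_self (by simp)⟩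
    | insert s S _ ih =>
      intro hS
      have h1 := hS s (Finset.mem_insert_self _ _)
      have h2 : ∀ t ∈ S, t • x = x := fun t ht => hS t (Finset.mem_insert_of_mem ht)
      have h3 := (gated_Ch (Or.inl ⟨x, h1⟩ : Ell X s ∨ Hyp X s)).inter (ih h2)
        ⟨x, mem_Ch_of_fix h1, h2⟩
      have e : {z : X | ∀ t ∈ insert s S, t • z = z} = Ch X s ∩ {z : X | ∀ t ∈ S, t • z = z} := by
        ext z
        simp [Ell.mem_Ch (⟨x, h1⟩ : Ell X s)]
      rwa [e]
  have e : Fix X (Subgroup.closure (S : Set G)) = {z : X | ∀ s ∈ S, s • z = z} :=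
    Set.ext fun _ => mem_Fix_closure
  rw [e] at hx ⊢
  exact key S hx

/-- A finitely generated group that fixes a point and a direction fixes an arc. -/
theorem fix_arc (hH : H.FG) (hx : x ∈ Fix X H) (hne : y ≠ x) (hy : ∀ h ∈ H, h • y ∈ dir x y) :
    ∃ m, m ≠ x ∧ Btw x m y ∧ m ∈ Fix X H := by
  obtain ⟨S, rfl⟩ := hH
  have hs : ∀ s ∈ S, s ∈ Subgroup.closure (S : Set G) := fun s hs => Subgroup.subset_closure hs
  obtain ⟨m, hm, hm'⟩ := helly_rel S (fun s => {x : X | s • x = x}) (fun s _ => conv_fix s)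
    (fun s h1 t h2 => ⟨x, hx s (hs s h1), hx t (hs t h2)⟩) (seg x y ∩ dir x y)
    ((conv_seg x y).inter (conv_dir x y)) ⟨y, btw_right _ _, self_mem_dir hne⟩ fun s h1 =>
      ⟨med x y (s • y), ⟨med_btw12 _ _ _, med_mem_dir (hy s (hs s h1))⟩, fix_med (hx s (hs s h1)) y⟩
  exact ⟨m, ne_of_mem_dir hm.2, hm.1, mem_Fix_closure.2 hm'⟩

/-- One element that fixes a point and a direction fixes an arc. -/
theorem fix_arc_one (hx : g • x = x) (hy : g • y ∈ dir x y) :
    med x y (g • y) ≠ x ∧ Btw x (med x y (g • y)) y ∧ g • med x y (g • y) = med x y (g • y) :=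
  ⟨mem_dir_iff_med.1 hy, med_btw12 _ _ _, fix_med hx y⟩

/-! ### The axis and its ends -/

/-- The translates of a fundamental segment cover the axis. -/
theorem Hyp.cover (h : Hyp X g) (hx : x ∈ Ch X g) (hz : z ∈ Ch X g) :
    ∃ n : ℤ, Btw (g ^ n • x) z (g ^ (n + 1) • x) := by
  obtain ⟨N, hN⟩ := exists_nat_gt (dist x z / tl X g)
  rw [div_lt_iff₀ h.tl_pos] at hN
  have hb : Btw (g ^ (-(N : ℤ)) • x) x (g ^ (N : ℤ) • x) := by
    simpa using btw_zpow hx (show -(N : ℤ) ≤ 0 by omega) (show (0 : ℤ) ≤ N by omega)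
  have d1 : dist x (g ^ (N : ℤ) • x) = N * tl X g := by rw [dist_zpow_smul hx]; simp
  have d2 : dist x (g ^ (-(N : ℤ)) • x) = N * tl X g := by rw [dist_zpow_smul hx]; simp
  have hm : Btw (g ^ (-(N : ℤ)) • x) z (g ^ (N : ℤ) • x) := by
    by_contra hn
    set m := med (g ^ (-(N : ℤ)) • x) (g ^ (N : ℤ) • x) z with hm
    have hzm : z ≠ m := fun e => hn (med_eq_right_iff.1 e.symm)
    have hg := hb.gate z
    rw [← hm] at hg
    have hlt : dist x m < N * tl X g := hg.symm.dist_le_left.trans_lt hN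
    have e1 : g ^ (-(N : ℤ)) • x ≠ m := fun e => by rw [← e, d2] at hlt; exact hlt.false
    have e2 : g ^ (N : ℤ) • x ≠ m := fun e => by rw [← e, d1] at hlt; exact hlt.false
    have ht : Tri m (g ^ (-(N : ℤ)) • x) (g ^ (N : ℤ) • x) z := tri_med e1 e2 hzm
    have hmC : m ∈ Ch X g :=
      (conv_Ch g).med_mem12 ((zpow_smul_mem_Ch _).2 hx) ((zpow_smul_mem_Ch _).2 hx) z
    obtain ⟨w, hw, hwm, k1, k2⟩ := ht.exists_away (g • m) (g⁻¹ • m)
    have hwC : w ∈ Ch X g := by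
      rcases hw with rfl | rfl | rfl
      · exact (zpow_smul_mem_Ch _).2 hx
      · exact (zpow_smul_mem_Ch _).2 hx
      · exact hz
    have k3 : Btw (g • w) (g • m) m := by simpa only [smul_inv_smul] using k2.symm.smul g
    have k4 : Btw w m (g • w) := k1.symm.concat_left k3.symm (h.smul_ne m).symm
    have k5 := k3.dist_le_right
    have k6 := k4.dist_lt_right hwm
    rw [← tl_eq_of_mem_Ch hwC] at k6
    rw [dist_comm (g • m) m, ← tl_eq_of_mem_Ch hmC, dist_comm (g • w) m] at k5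
    linarith
  have key : ∀ (k : ℕ) (a : ℤ), Btw (g ^ a • x) z (g ^ (a + k + 1) • x) →
      ∃ n : ℤ, Btw (g ^ n • x) z (g ^ (n + 1) • x) := by
    intro k
    induction k with
    | zero => exact fun a ha => ⟨a, by simpa using ha⟩
    | succ k ih =>
      intro a ha
      rcases ha.or (g ^ (a + 1) • x) with h1 | h1
      · exact ⟨a, h1⟩
      · refine ih (a + 1) ?_
        have : a + 1 + k + 1 = a + ((k + 1 : ℕ) : ℤ) + 1 := by push_cast; ring
        rwa [this]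
  refine key (2 * N) (-(N : ℤ)) (hm.trans_left (btw_zpow hx (by omega) (by push_cast; omega)))

/-- The axis has no branch point. -/
theorem Hyp.not_tri {a b c : X} (h : Hyp X g) (ha : a ∈ Ch X g) (hb : b ∈ Ch X g)
    (hc : c ∈ Ch X g) : ¬ Tri x a b c := by
  intro ht
  have hmC : x ∈ Ch X g := conv_Ch g a ha b hb x ht.2.2.2.1
  obtain ⟨w, hw, hwm, k1, k2⟩ := ht.exists_away (g • x) (g⁻¹ • x)
  have hwC : w ∈ Ch X g := by
    rcases hw with rfl | rfl | rfl <;> assumption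
  have k3 : Btw (g • w) (g • x) x := by simpa only [smul_inv_smul] using k2.symm.smul g
  have k4 : Btw w x (g • w) := k1.symm.concat_left k3.symm (h.smul_ne x).symm
  have k5 := k3.dist_le_right
  have k6 := k4.dist_lt_right hwm
  rw [← tl_eq_of_mem_Ch hwC] at k6
  rw [dist_comm (g • x) x, ← tl_eq_of_mem_Ch hmC, dist_comm (g • w) x] at k5
  linarith

theorem Hyp.Br_Ch (h : Hyp X g) : Br (Ch X g) = ∅ :=
  Set.eq_empty_of_forall_notMem fun _ ⟨_, ha, _, hb, _, hc, ht⟩ => h.not_tri ha hb hc ht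

theorem Hyp.linear {a b c : X} (h : Hyp X g) (ha : a ∈ Ch X g) (hb : b ∈ Ch X g) (hc : c ∈ Ch X g) :
    Btw b a c ∨ Btw a b c ∨ Btw a c b := linear_of_Br_empty h.Br_Ch ha hb hc

/-- A point of the axis other than `x` is ahead of `x` or behind `x`. -/
theorem Hyp.ahead_or_behind (h : Hyp X g) (hx : x ∈ Ch X g) (hz : z ∈ Ch X g) :
    Btw (g⁻¹ • x) x z ∨ Btw z x (g • x) := (mem_Ch.1 hx).or z

/-- A non-empty convex set invariant under a hyperbolic element contains the axis. -/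
theorem Hyp.Ch_subset {C : Set X} (h : Hyp X g) (hC : Conv C) (hne : C.Nonempty)
    (hI : ∀ n : ℤ, ∀ x ∈ C, g ^ n • x ∈ C) : Ch X g ⊆ C := by
  obtain ⟨y, hy⟩ := hne
  obtain ⟨p, hp, hp'⟩ := hC.meets_Ch (Or.inr h) hy (by simpa using hI 1 y hy)
  intro z hz
  obtain ⟨n, hn⟩ := h.cover hp'.1 hz
  exact hC _ (hI n p hp) _ (hI _ p hp) z hn

theorem Hyp.Ch_subset_Tmin (h : Hyp X g) (hg : g ∈ H) : Ch X g ⊆ Tmin X H :=
  fun _ hz _ h1 h2 h3 => h.Ch_subset h2 h1 (fun n x hx => h3 _ (H.zpow_mem hg n) x hx) hz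

theorem Tmin_nonempty (h : Hyp X g) (hg : g ∈ H) : (Tmin X H).Nonempty :=
  (Ch_nonempty (Or.inr h)).mono (h.Ch_subset_Tmin hg)

theorem Tmin_nonempty_of_fg (hH : H.FG) (hd : Dich X H) (hn : ∀ x : X, ∃ h ∈ H, h • x ≠ x) :
    (Tmin X H).Nonempty := by
  obtain ⟨g, hg, h⟩ := ex_hyp hH hd hn
  exact Tmin_nonempty h hg

/-- An elliptic element has a fixed point in every non-empty invariant convex set. -/
theorem Ell.fix_in {C : Set X} (h : Ell X g) (hC : Conv C) (hy : y ∈ C) (hy' : g • y ∈ C) :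
    ∃ p ∈ C, g • p = p := by
  obtain ⟨p, hp, hp'⟩ := hC.meets_Ch (Or.inl h) hy hy'
  exact ⟨p, hp, h.mem_Ch.1 hp'.1⟩

/-- A subgroup with a fixed point that leaves a gated set invariant fixes a point of it. -/
theorem Gated.fix_in {C : Set X} (hC : Gated C) (hI : Inv H C) (hx : x ∈ Fix X H) :
    ∃ p ∈ C, p ∈ Fix X H := by
  obtain ⟨p, hp⟩ := hC x
  refine ⟨p, hp.1, fun h hh => ?_⟩
  have := hp.smul_of_inv (g := h) fun _ => hI.mem_iff hh
  rw [hx h hh] at this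
  exact this.unique hp

/-- If the minimal subtree has no branch point, it is the axis of each hyperbolic element. -/
theorem Tmin_eq_Ch (h : Hyp X g) (hg : g ∈ H) (hB : Br (Tmin X H) = ∅) : Tmin X H = Ch X g := by
  refine Set.Subset.antisymm (fun y hy => ?_) (h.Ch_subset_Tmin hg)
  obtain ⟨p, hp⟩ := gated_Ch (Or.inr h) y
  by_contra hn
  have h1 : g • p ∈ Ch X g := smul_mem_Ch.2 hp.1
  have h2 : g⁻¹ • p ∈ Ch X g := inv_smul_mem_Ch.2 hp.1
  have : p ∈ Br (Tmin X H) := ⟨y, hy, _, h.Ch_subset_Tmin hg h2, _, h.Ch_subset_Tmin hg h1,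
    fun e => hn (e ▸ hp.1), h.inv.smul_ne p, h.smul_ne p, hp.2 _ h2, hp.1, hp.2 _ h1⟩
  rw [hB] at this
  exact this

end

end Pool.Agent.MP_3ce0a0_al.Q2T1
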