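import Mathlib

/-!
Tree-spaces, simplicial trees, and the basic notions for group actions on them.
-/

set_option autoImplicit false

namespace Pool.Agent.MP_3ce0a0_al.Q2T1

noncomputable section

section Space

variable {X : Type} [MetricSpace X]

/-- `y` lies between `x` and `z`. -/
def Btw (x y z : X) : Prop := dist x y + dist y z = dist x z

/-- Tree-spaces: the four-point condition holds and every triple has a median. -/
class IsTree (X : Type) [MetricSpace X] : Prop where
  four : ∀ x y z w : X, dist x y + dist z w ≤ max (dist x z + dist y w) (dist x w + dist y z)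
  ex_med : ∀ x y z : X, ∃ m, Btw x m y ∧ Btw y m z ∧ Btw x m z

/-- The vertex set of a simplicial tree; the edges are the pairs at distance one. -/
class IsSimp (X : Type) [MetricSpace X] : Prop extends IsTree X where
  int : ∀ x y : X, ∃ n : ℕ, dist x y = n
  geo : ∀ x y : X, x ≠ y → ∃ z, dist x z = 1 ∧ Btw x z y

/-- The median. -/
def med [IsTree X] (x y z : X) : X := (IsTree.ex_med x y z).choose

/-- The segment. -/
def seg (x y : X) : Set X := {z | Btw x z y}

/-- Convex sets. -/
def Conv (C : Set X) : Prop := ∀ x ∈ C, ∀ y ∈ C, ∀ z, Btw x z y → z ∈ C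

/-- The convex hull. -/
def hull (A : Set X) : Set X := {z | ∃ x ∈ A, ∃ y ∈ A, Btw x z y}

/-- The direction at `x` that contains `y` (empty if `y = x`). -/
def dir (x y : X) : Set X := {z | ¬ Btw y x z}

/-- The directions at `x`. -/
def Dirs (x : X) : Set (Set X) := {δ | ∃ y, y ≠ x ∧ δ = dir x y}

/-- The points `a`, `b`, `c` lie in three different directions at `x`. -/
def Tri (x a b c : X) : Prop := a ≠ x ∧ b ≠ x ∧ c ≠ x ∧ Btw a x b ∧ Btw b x c ∧ Btw a x c

/-- The branch points of `C`. -/
def Br (C : Set X) : Set X := {x | ∃ a ∈ C, ∃ b ∈ C, ∃ c ∈ C, Tri x a b c}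

/-- Sets that contain the medians of their triples. -/
def MedCl (C : Set X) : Prop :=
  ∀ x ∈ C, ∀ y ∈ C, ∀ z ∈ C, ∀ m, Btw x m y → Btw y m z → Btw x m z → m ∈ C

end Space

section Act

/-- Actions that preserve betweenness. -/
class BAct (G X : Type) [Group G] [MetricSpace X] [MulAction G X] : Prop where
  btw : ∀ (g : G) (x y z : X), Btw x y z → Btw (g • x) (g • y) (g • z)

variable {G : Type} [Group G] (X : Type) [MetricSpace X] [MulAction G X]

instance bact_of_isom [IsIsometricSMul G X] : BAct G X :=
  ⟨fun g x y z h => by simpa only [Btw, dist_smul] using h⟩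

instance isom_subgroup [IsIsometricSMul G X] (H : Subgroup G) : IsIsometricSMul H X :=
  ⟨fun h => isometry_smul X (h : G)⟩

instance bact_subgroup [BAct G X] (H : Subgroup G) : BAct H X :=
  ⟨fun h => BAct.btw (h : G)⟩

/-- Elliptic elements. -/
def Ell (g : G) : Prop := ∃ x : X, g • x = x

/-- Hyperbolic elements. -/
def Hyp (g : G) : Prop := ∃ x : X, g • x ≠ x ∧ Btw (g⁻¹ • x) x (g • x)

/-- The characteristic set: the fixed set of an elliptic element, the axis of a hyperbolic one. -/
def Ch (g : G) : Set X := {x | Btw (g⁻¹ • x) x (g • x)}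

/-- The translation length. -/
def tl (g : G) : ℝ := ⨅ x : X, dist x (g • x)

/-- The common fixed points of a subgroup. -/
def Fix (H : Subgroup G) : Set X := {x | ∀ h ∈ H, h • x = x}

/-- Every element is elliptic or hyperbolic. -/
def Dich (H : Subgroup G) : Prop := ∀ g ∈ H, Ell X g ∨ Hyp X g

variable {X}

/-- Invariant sets. -/
def Inv (H : Subgroup G) (C : Set X) : Prop := ∀ h ∈ H, ∀ x ∈ C, h • x ∈ C

/-- The orbit of a subgroup. -/
def orb (H : Subgroup G) (x : X) : Set X := {y | ∃ h ∈ H, y = h • x}

variable (X)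

/-- The minimal subtree: the intersection of all non-empty invariant convex sets. -/
def Tmin (H : Subgroup G) : Set X := {x | ∀ C : Set X, C.Nonempty → Conv C → Inv H C → x ∈ C}

/-- No element inverts an edge. -/
def NoInv (H : Subgroup G) : Prop := ∀ g ∈ H, ∀ x : X, dist x (g • x) = 1 → g • g • x ≠ x

end Act

end

end Pool.Agent.MP_3ce0a0_al.Q2T1
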