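import Pool.Agent.MP_3ce0a0_al.Q2T1.Basic

/-!
Gates, and equivariance under actions that preserve betweenness.
-/

set_option autoImplicit false

open Pointwise

namespace Pool.Agent.MP_3ce0a0_al.Q2T1

noncomputable section

variable {X : Type} [MetricSpace X]

/-- `p` is the projection of `y` to `C`. -/
def IsGate (C : Set X) (y p : X) : Prop := p ∈ C ∧ ∀ q ∈ C, Btw y p q

/-- Every point has a projection to `C`. -/
def Gated (C : Set X) : Prop := ∀ y, ∃ p, IsGate C y p

section Gate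

variable {C D : Set X} {x y z p q : X}

theorem IsGate.unique (h : IsGate C y p) (h' : IsGate C y q) : p = q :=
  (h.2 q h'.1).antisymm (h'.2 p h.1)

theorem isGate_self (h : y ∈ C) : IsGate C y y := ⟨h, fun _ _ => btw_left _ _⟩

theorem IsGate.eq_of_mem (h : IsGate C y p) (hy : y ∈ C) : p = y := h.unique (isGate_self hy)

theorem IsGate.dist_le (h : IsGate C y p) (hq : q ∈ C) : dist y p ≤ dist y q := (h.2 q hq).dist_le_left

theorem IsGate.of_btw (h : IsGate C y p) (hz : Btw y z p) : IsGate C z p :=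
  ⟨h.1, fun q hq => hz.trans_left' (h.2 q hq)⟩

variable [IsTree X]

theorem isGate_seg (x y z : X) : IsGate (seg x y) z (med x y z) :=
  ⟨med_btw12 x y z, fun _ hq => Btw.gate hq z⟩

theorem gated_seg (x y : X) : Gated (seg x y) := fun z => ⟨_, isGate_seg x y z⟩

theorem Gated.conv (h : Gated C) : Conv C := by
  intro a ha b hb z hz
  obtain ⟨p, hp⟩ := h z
  have h1 := hp.2 a ha
  have h2 := hp.2 b hb
  have : p = z := ((btw_med_iff.2 ⟨h1, h2⟩ : Btw z p (med z a b)).antisymm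
    (by rw [med_eq_left_iff.2 hz]; exact btw_left _ _)).trans (med_eq_left_iff.2 hz)
  exact this ▸ hp.1

/-- If the gates differ, the geodesic passes through both. -/
theorem IsGate.btw_of_ne (h : IsGate C y p) (h' : IsGate C z q) (hne : p ≠ q) :
    Btw y p z ∧ Btw y q z ∧ dist y z = dist y p + dist p q + dist q z := by
  have h1 := h.2 q h'.1
  have h2 := (h'.2 p h.1).symm
  have h3 := h1.concat_right h2 hne
  refine ⟨h1.concat_left h2 hne, h3, ?_⟩
  unfold Btw at h1 h3
  linarith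

theorem IsGate.dist_le_dist (h : IsGate C y p) (h' : IsGate C z q) : dist p q ≤ dist y z := by
  by_cases hne : p = q
  · rw [hne, dist_self]
    exact dist_nonneg
  · rw [(h.btw_of_ne h' hne).2.2]
    linarith [dist_nonneg (x := y) (y := p), dist_nonneg (x := q) (y := z)]

/-- The gate of a point of a convex set that meets `C` lies in that set. -/
theorem IsGate.mem_of_conv (h : IsGate C y p) (hD : Conv D) (hy : y ∈ D) (hq : q ∈ C) (hq' : q ∈ D) :
    p ∈ D := hD y hy q hq' p (h.2 q hq)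

/-- All points of a direction at a point of a convex set that misses the set have that gate. -/
theorem Conv.isGate_of_dir (hp : p ∈ C) (h : ∀ q ∈ C, q ∉ dir p y) (hz : z ∈ dir p y) :
    IsGate C z p := ⟨hp, fun q hq => btw_of_mem_dir hz (h q hq)⟩

/-- A point beyond `y` seen from its gate has the same gate. -/
theorem IsGate.of_mem_dir (h : IsGate C y p) (hz : z ∈ dir p y) : IsGate C z p :=
  ⟨h.1, fun q hq => btw_of_mem_dir hz (not_not.2 (h.2 q hq))⟩

/-- The bridge between two gated sets. -/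
theorem Gated.bridge (hC : Gated C) (hD : Gated D) (y : X) :
    ∃ p q, IsGate C q p ∧ IsGate D p q := by
  obtain ⟨y', hy'⟩ := hD y
  obtain ⟨p, hp⟩ := hC y'
  obtain ⟨q, hq⟩ := hD p
  exact ⟨p, q, hp.of_btw (hq.2 y' hy'.1).symm, hq⟩

/-- A bridge of positive length lies on every geodesic between the two sets. -/
theorem bridge_btw (hp : IsGate C q p) (hq : IsGate D p q) (hne : p ≠ q) (hx : x ∈ C) (hy : y ∈ D) :
    Btw x p y ∧ Btw x q y :=
  ⟨(hp.2 x hx).symm.concat_left (hq.2 y hy) hne, (hp.2 x hx).symm.concat_right (hq.2 y hy) hne⟩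

theorem Gated.inter (hC : Gated C) (hD : Gated D) (h : (C ∩ D).Nonempty) : Gated (C ∩ D) := by
  intro y
  obtain ⟨a, ha, ha'⟩ := h
  obtain ⟨p, hp⟩ := hC y
  obtain ⟨q, hq⟩ := hD p
  exact ⟨q, ⟨hq.mem_of_conv hC.conv hp.1 ha' ha, hq.1⟩,
    fun z hz => (hp.2 z hz.1).trans_right (hq.2 z hz.2)⟩

/-- The hull of a finite set is gated. -/
theorem gated_hull_finite {A : Set X} (hA : A.Finite) (hne : A.Nonempty) : Gated (hull A) := by
  intro y
  obtain ⟨a, ha⟩ := hne
  obtain ⟨b, hb, hmin⟩ := Set.exists_min_image A (fun b => dist y (med a b y)) hA ⟨a, ha⟩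
  have hm : med a b y ∈ hull A := ⟨a, ha, b, hb, med_btw12 _ _ _⟩
  refine ⟨med a b y, hm, (conv_hull A).gate_of_dist hm fun z hz => ?_⟩
  obtain ⟨c, hc, h⟩ := (mem_hull_base ha).1 hz
  exact (hmin c hc).trans (h.gate y).dist_le_left

/-- Convexity of the distance along two segments run through at the same speed. -/
theorem dist_le_max_of_btw {p q z p' q' z' : X} (h : Btw p z q) (h1 : dist p z = dist p' z')
    (h2 : dist z q = dist z' q') : dist z z' ≤ max (dist p p') (dist q q') := by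
  rcases h.or z' with h3 | h3
  · refine le_max_of_le_left ?_
    unfold Btw at h3
    linarith [dist_triangle p p' z']
  · refine le_max_of_le_right ?_
    unfold Btw at h3
    have := dist_triangle z' q' q
    rw [dist_comm z' z] at h3
    rw [dist_comm q' q] at this
    linarith

end Gate

variable {G : Type} [Group G] [MulAction G X]

section NoMetric

variable {g h : G} {x y : X} {H K : Subgroup G} {C : Set X}

omit [MetricSpace X] in
theorem mem_Fix : x ∈ Fix X H ↔ ∀ h ∈ H, h • x = x := Iff.rfl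

omit [MetricSpace X] in
theorem Fix_anti (h : H ≤ K) : Fix X K ⊆ Fix X H := fun _ hx k hk => hx k (h hk)

omit [MetricSpace X] in
theorem mem_Fix_closure {S : Set G} : x ∈ Fix X (Subgroup.closure S) ↔ ∀ s ∈ S, s • x = x :=
  ⟨fun h s hs => h s (Subgroup.subset_closure hs),
    fun h _ hg => (Subgroup.closure_le (MulAction.stabilizer G x)).2 h hg⟩

omit [MetricSpace X] in
theorem mem_Fix_zpowers : x ∈ Fix X (Subgroup.zpowers g) ↔ g • x = x := by
  rw [Subgroup.zpowers_eq_closure, mem_Fix_closure]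
  simp

omit [MetricSpace X] in
theorem mem_Fix_iff_le : x ∈ Fix X H ↔ H ≤ MulAction.stabilizer G x := Iff.rfl

omit [MetricSpace X] in
theorem smul_mem_Fix (hx : x ∈ Fix X H) (hg : ∀ h ∈ H, g⁻¹ * h * g ∈ H) : g • x ∈ Fix X H := by
  intro h hh
  have := hx _ (hg h hh)
  rw [mul_smul, mul_smul, inv_smul_eq_iff] at this
  exact this

omit [MetricSpace X] in
theorem self_mem_orb (H : Subgroup G) (x : X) : x ∈ orb H x := ⟨1, H.one_mem, (one_smul _ _).symm⟩

omit [MetricSpace X] in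
theorem smul_mem_orb (hh : h ∈ H) (x : X) : h • x ∈ orb H x := ⟨h, hh, rfl⟩

omit [MetricSpace X] in
theorem inv_orb (H : Subgroup G) (x : X) : Inv H (orb H x) := by
  rintro h hh _ ⟨k, hk, rfl⟩
  exact ⟨h * k, H.mul_mem hh hk, (mul_smul _ _ _).symm⟩

omit [MetricSpace X] in
theorem Inv.orb_subset (hC : Inv H C) (hx : x ∈ C) : orb H x ⊆ C := by
  rintro _ ⟨k, hk, rfl⟩
  exact hC k hk x hx

omit [MetricSpace X] in
theorem Inv.mem_iff (hC : Inv H C) (hh : h ∈ H) : h • x ∈ C ↔ x ∈ C :=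
  ⟨fun h' => by simpa using hC h⁻¹ (H.inv_mem hh) _ h', hC h hh x⟩

omit [MetricSpace X] in
theorem Inv.smul_eq (hC : Inv H C) (hh : h ∈ H) : h • C = C := by
  ext x
  rw [Set.mem_smul_set_iff_inv_smul_mem, hC.mem_iff (H.inv_mem hh)]

omit [MetricSpace X] in
theorem Inv.mono (hC : Inv K C) (h : H ≤ K) : Inv H C := fun k hk => hC k (h hk)

omit [MetricSpace X] in
theorem inv_univ (H : Subgroup G) : Inv H (Set.univ : Set X) := fun _ _ _ _ => trivial

omit [MetricSpace X] in
theorem Inv.inter {D : Set X} (hC : Inv H C) (hD : Inv H D) : Inv H (C ∩ D) :=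
  fun h hh x hx => ⟨hC h hh x hx.1, hD h hh x hx.2⟩

omit [MetricSpace X] in
theorem inv_closure {S : Set G} (h : ∀ s ∈ S, ∀ x, s • x ∈ C ↔ x ∈ C) :
    Inv (Subgroup.closure S) C := by
  have : ∀ g ∈ Subgroup.closure S, ∀ x, g • x ∈ C ↔ x ∈ C := by
    intro g hg
    induction hg using Subgroup.closure_induction with
    | mem s hs => exact h s hs
    | one => simp
    | mul a b _ _ ha hb => intro x; rw [mul_smul, ha, hb]
    | inv a _ ha => intro x; rw [← ha, smul_inv_smul]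
  exact fun g hg x hx => (this g hg x).2 hx

omit [MetricSpace X] in
theorem Ell.inv (h : Ell X g) : Ell X g⁻¹ := h.imp fun _ hx => inv_smul_eq_iff.2 hx.symm

omit [MetricSpace X] in
theorem ell_inv : Ell X g⁻¹ ↔ Ell X g := ⟨fun h => by simpa using h.inv, Ell.inv⟩

omit [MetricSpace X] in
theorem Ell.conj (h : Ell X g) (k : G) : Ell X (k * g * k⁻¹) := by
  obtain ⟨x, hx⟩ := h
  exact ⟨k • x, by rw [mul_smul, mul_smul, inv_smul_smul, hx]⟩

omit [MetricSpace X] in
theorem ell_conj (k : G) : Ell X (k * g * k⁻¹) ↔ Ell X g :=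
  ⟨fun h => by simpa [mul_assoc] using h.conj k⁻¹, fun h => h.conj k⟩

omit [MetricSpace X] in
theorem zpow_smul_of_fix (h : g • x = x) (n : ℤ) : g ^ n • x = x :=
  (MulAction.stabilizer G x).zpow_mem h n

omit [MetricSpace X] in
theorem pow_smul_of_fix (h : g • x = x) (n : ℕ) : g ^ n • x = x :=
  (MulAction.stabilizer G x).pow_mem h n

omit [MetricSpace X] in
theorem Ell.zpow (h : Ell X g) (n : ℤ) : Ell X (g ^ n) := h.imp fun _ hx => zpow_smul_of_fix hx n

omit [MetricSpace X] in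
theorem Ell.pow (h : Ell X g) (n : ℕ) : Ell X (g ^ n) := h.imp fun _ hx => pow_smul_of_fix hx n

omit [MetricSpace X] in
theorem ell_one [Nonempty X] : Ell X (1 : G) := ⟨Classical.arbitrary X, one_smul _ _⟩

theorem mem_Ch : x ∈ Ch X g ↔ Btw (g⁻¹ • x) x (g • x) := Iff.rfl

theorem mem_Ch_of_fix (h : g • x = x) : x ∈ Ch X g := by
  rw [mem_Ch, h]
  exact btw_right _ _

theorem Ch_inv (g : G) : Ch X g⁻¹ = Ch X g := by
  ext x
  rw [mem_Ch, mem_Ch, inv_inv, btw_comm]

theorem hyp_iff : Hyp X g ↔ ∃ x ∈ Ch X g, g • x ≠ x :=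
  ⟨fun ⟨x, h1, h2⟩ => ⟨x, h2, h1⟩, fun ⟨x, h1, h2⟩ => ⟨x, h2, h1⟩⟩

theorem Hyp.inv (h : Hyp X g) : Hyp X g⁻¹ := by
  obtain ⟨x, h1, h2⟩ := hyp_iff.1 h
  exact hyp_iff.2 ⟨x, by rwa [Ch_inv], fun e => h2 (inv_smul_eq_iff.1 e).symm⟩

theorem hyp_inv : Hyp X g⁻¹ ↔ Hyp X g := ⟨fun h => by simpa using h.inv, Hyp.inv⟩

theorem Ch_nonempty (h : Ell X g ∨ Hyp X g) : (Ch X g).Nonempty :=
  h.elim (fun ⟨x, hx⟩ => ⟨x, mem_Ch_of_fix hx⟩) fun ⟨x, hx⟩ => ⟨x, hx.2⟩

theorem Dich.mono (h : Dich X K) (hle : H ≤ K) : Dich X H := fun g hg => h g (hle hg)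

theorem NoInv.mono (h : NoInv X K) (hle : H ≤ K) : NoInv X H := fun g hg => h g (hle hg)

theorem conv_Tmin (H : Subgroup G) : Conv (Tmin X H) :=
  fun x hx y hy z hz C h1 h2 h3 => h2 x (hx C h1 h2 h3) y (hy C h1 h2 h3) z hz

theorem inv_Tmin (H : Subgroup G) : Inv H (Tmin X H) :=
  fun h hh x hx C h1 h2 h3 => h3 h hh x (hx C h1 h2 h3)

theorem Tmin_subset (h1 : C.Nonempty) (h2 : Conv C) (h3 : Inv H C) : Tmin X H ⊆ C :=
  fun _ hx => hx C h1 h2 h3

theorem Tmin_mono (h : H ≤ K) : Tmin X H ⊆ Tmin X K :=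
  fun _ hx C h1 h2 h3 => hx C h1 h2 (h3.mono h)

end NoMetric

section B

variable [BAct G X] {g h : G} {a b c x y z p : X} {H K : Subgroup G} {C : Set X}

theorem Btw.smul (h : Btw x y z) (g : G) : Btw (g • x) (g • y) (g • z) := BAct.btw g x y z h

@[simp] theorem btw_smul_iff (g : G) : Btw (g • x) (g • y) (g • z) ↔ Btw x y z :=
  ⟨fun h => by simpa only [inv_smul_smul] using h.smul g⁻¹, fun h => h.smul g⟩

theorem smul_med [IsTree X] (g : G) (x y z : X) : g • med x y z = med (g • x) (g • y) (g • z) :=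
  map_med (f := fun x => g • x) (fun _ _ _ h => h.smul g) x y z

theorem smul_mem_dir (g : G) : g • z ∈ dir (g • x) (g • y) ↔ z ∈ dir x y := by
  rw [mem_dir, mem_dir, btw_smul_iff]

theorem smul_dir (g : G) (x y : X) : g • dir x y = dir (g • x) (g • y) := by
  ext z
  rw [Set.mem_smul_set_iff_inv_smul_mem, ← smul_mem_dir g, smul_inv_smul]

theorem smul_seg (g : G) (x y : X) : g • seg x y = seg (g • x) (g • y) := by
  ext z
  rw [Set.mem_smul_set_iff_inv_smul_mem, mem_seg, mem_seg, ← btw_smul_iff g, smul_inv_smul]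

theorem Dirs.smul {δ : Set X} (h : δ ∈ Dirs x) (g : G) : g • δ ∈ Dirs (g • x) := by
  obtain ⟨y, hy, rfl⟩ := h
  exact ⟨g • y, fun e => hy (smul_left_cancel g e), smul_dir g x y⟩

theorem Conv.smul (hC : Conv C) (g : G) : Conv (g • C) := by
  intro x hx y hy z hz
  rw [Set.mem_smul_set_iff_inv_smul_mem] at *
  exact hC _ hx _ hy _ (hz.smul g⁻¹)

theorem MedCl.smul (hC : MedCl C) (g : G) : MedCl (g • C) := by
  intro x hx y hy z hz m h1 h2 h3
  rw [Set.mem_smul_set_iff_inv_smul_mem] at *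
  exact hC _ hx _ hy _ hz _ (h1.smul g⁻¹) (h2.smul g⁻¹) (h3.smul g⁻¹)

theorem smul_mem_hull {A : Set X} (g : G) (h : z ∈ hull A) : g • z ∈ hull (g • A) := by
  obtain ⟨x, hx, y, hy, hz⟩ := h
  exact ⟨g • x, Set.smul_mem_smul_set hx, g • y, Set.smul_mem_smul_set hy, hz.smul g⟩

theorem smul_hull (g : G) (A : Set X) : g • hull A = hull (g • A) := by
  ext z
  rw [Set.mem_smul_set_iff_inv_smul_mem]
  exact ⟨fun h => by simpa using smul_mem_hull g h, fun h => by simpa using smul_mem_hull g⁻¹ h⟩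

theorem Inv.hull {A : Set X} (hA : Inv H A) : Inv H (hull A) :=
  fun h hh _ ⟨x, hx, y, hy, hz⟩ => ⟨h • x, hA h hh x hx, h • y, hA h hh y hy, hz.smul h⟩

theorem Tri.smul (h : Tri x a b c) (g : G) : Tri (g • x) (g • a) (g • b) (g • c) :=
  ⟨fun e => h.1 (smul_left_cancel g e), fun e => h.2.1 (smul_left_cancel g e),
    fun e => h.2.2.1 (smul_left_cancel g e), h.2.2.2.1.smul g, h.2.2.2.2.1.smul g,
    h.2.2.2.2.2.smul g⟩

theorem Inv.Br (hC : Inv H C) : Inv H (Br C) :=
  fun h hh _ ⟨a, ha, b, hb, c, hc, ht⟩ =>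
    ⟨h • a, hC h hh a ha, h • b, hC h hh b hb, h • c, hC h hh c hc, ht.smul h⟩

theorem smul_mem_Br (g : G) (h : x ∈ Br C) : g • x ∈ Br (g • C) := by
  obtain ⟨a, ha, b, hb, c, hc, ht⟩ := h
  exact ⟨_, Set.smul_mem_smul_set ha, _, Set.smul_mem_smul_set hb, _, Set.smul_mem_smul_set hc,
    ht.smul g⟩

theorem IsGate.smul (h : IsGate C y p) (g : G) : IsGate (g • C) (g • y) (g • p) := by
  refine ⟨Set.smul_mem_smul_set h.1, ?_⟩
  rintro _ ⟨q, hq, rfl⟩
  exact (h.2 q hq).smul g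

theorem IsGate.smul_of_inv (h : IsGate C y p) (hC : ∀ x, g • x ∈ C ↔ x ∈ C) :
    IsGate C (g • y) (g • p) :=
  ⟨(hC p).2 h.1, fun q hq => by
    have := (h.2 (g⁻¹ • q) ((hC _).1 (by rwa [smul_inv_smul]))).smul g
    rwa [smul_inv_smul] at this⟩

theorem smul_mem_Ch_conj (k : G) : k • x ∈ Ch X (k * g * k⁻¹) ↔ x ∈ Ch X g := by
  rw [mem_Ch, mem_Ch, ← btw_smul_iff k (x := g⁻¹ • x)]
  simp only [mul_inv_rev, inv_inv, mul_smul, inv_smul_smul]

theorem Ch_conj (k g : G) : Ch X (k * g * k⁻¹) = k • Ch X g := by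
  ext x
  rw [Set.mem_smul_set_iff_inv_smul_mem, ← smul_mem_Ch_conj (g := g) (x := k⁻¹ • x) k,
    smul_inv_smul]

theorem smul_mem_Ch_of_commute (hc : Commute h g) : h • x ∈ Ch X g ↔ x ∈ Ch X g := by
  have : h * g * h⁻¹ = g := by rw [hc.eq, mul_inv_cancel_right]
  rw [← smul_mem_Ch_conj (x := x) h, this]

theorem smul_mem_Ch : g • x ∈ Ch X g ↔ x ∈ Ch X g := smul_mem_Ch_of_commute (Commute.refl g)

theorem inv_smul_mem_Ch : g⁻¹ • x ∈ Ch X g ↔ x ∈ Ch X g :=
  smul_mem_Ch_of_commute (Commute.refl g).inv_left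

theorem zpow_smul_mem_Ch (n : ℤ) : g ^ n • x ∈ Ch X g ↔ x ∈ Ch X g :=
  smul_mem_Ch_of_commute ((Commute.refl g).zpow_left n)

theorem pow_smul_mem_Ch (n : ℕ) : g ^ n • x ∈ Ch X g ↔ x ∈ Ch X g :=
  smul_mem_Ch_of_commute ((Commute.refl g).pow_left n)

theorem mem_Ch_iff_btw : x ∈ Ch X g ↔ Btw x (g • x) (g • g • x) := by
  rw [mem_Ch, ← btw_smul_iff g, smul_inv_smul]

theorem Hyp.conj (h : Hyp X g) (k : G) : Hyp X (k * g * k⁻¹) := by
  obtain ⟨x, h1, h2⟩ := hyp_iff.1 h
  refine hyp_iff.2 ⟨k • x, (smul_mem_Ch_conj k).2 h1, fun e => h2 ?_⟩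
  rw [mul_smul, mul_smul, inv_smul_smul] at e
  exact smul_left_cancel k e

theorem hyp_conj (k : G) : Hyp X (k * g * k⁻¹) ↔ Hyp X g :=
  ⟨fun h => by simpa [mul_assoc] using h.conj k⁻¹, fun h => h.conj k⟩

theorem hull_orb_conv_inv [IsTree X] (H : Subgroup G) (x : X) :
    (hull (orb H x)).Nonempty ∧ Conv (hull (orb H x)) ∧ Inv H (hull (orb H x)) :=
  ⟨⟨x, subset_hull _ (self_mem_orb H x)⟩, conv_hull _, (inv_orb H x).hull⟩

theorem Tmin_subset_hull [IsTree X] (H : Subgroup G) (x : X) : Tmin X H ⊆ hull (orb H x) :=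
  Tmin_subset (hull_orb_conv_inv H x).1 (conv_hull _) (inv_orb H x).hull

/-- The minimal subtree is the hull of each of its orbits. -/
theorem Tmin_eq_hull [IsTree X] (hx : x ∈ Tmin X H) : Tmin X H = hull (orb H x) :=
  (Tmin_subset_hull H x).antisymm (hull_min (conv_Tmin H) ((inv_Tmin H).orb_subset hx))

/-- Every orbit meets every direction that meets the minimal subtree. -/
theorem orb_meets_dir [IsTree X] (hy : y ∈ Tmin X H) (hne : y ≠ x) (z : X) :
    ∃ h ∈ H, h • z ∈ dir x y := by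
  by_contra hn
  push Not at hn
  have : hull (orb H z) ⊆ (dir x y)ᶜ := hull_min (conv_compl_dir x y) (by
    rintro _ ⟨k, hk, rfl⟩
    exact hn k hk)
  exact this (Tmin_subset_hull H z hy) (self_mem_dir hne)

/-- An element that conjugates `H` into `K` maps the minimal subtree of `H` into that of `K`. -/
theorem smul_mem_Tmin (hx : x ∈ Tmin X H) (hg : ∀ h ∈ H, g * h * g⁻¹ ∈ K) : g • x ∈ Tmin X K := by
  intro C h1 h2 h3
  have := hx (g⁻¹ • C) h1.smul_set (h2.smul _) fun h hh y hy => by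
    rw [Set.mem_smul_set_iff_inv_smul_mem, inv_inv] at hy ⊢
    have := h3 _ (hg h hh) _ hy
    rwa [mul_smul, mul_smul, inv_smul_smul] at this
  rwa [Set.mem_smul_set_iff_inv_smul_mem, inv_inv] at this

theorem inv_Tmin_of_norm (h : ∀ k ∈ K, ∀ h ∈ H, k * h * k⁻¹ ∈ H) : Inv K (Tmin X H) :=
  fun k hk _ hx => smul_mem_Tmin hx (h k hk)

theorem inv_Tmin_normal [hN : H.Normal] (K : Subgroup G) : Inv K (Tmin X H) :=
  inv_Tmin_of_norm fun k _ h hh => hN.conj_mem h hh k

/-- The hull of an orbit is covered by the translates of the segments given by generators. -/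
theorem hull_orb_closure [IsTree X] {S : Set G} (x : X) (hz : z ∈ hull (orb (Subgroup.closure S) x)) :
    z = x ∨ ∃ h ∈ Subgroup.closure S, ∃ s ∈ S, Btw x (h • z) (s • x) := by
  obtain ⟨_, ⟨k, hk, rfl⟩, hb⟩ := (mem_hull_base (self_mem_orb _ x)).1 hz
  have key : ∀ k ∈ Subgroup.closure S, ∀ z, Btw x z (k • x) →
      z ∈ orb (Subgroup.closure S) x ∧ k = 1 ∨
        ∃ h ∈ Subgroup.closure S, ∃ s ∈ S, Btw x (h • z) (s • x) ∨ False := by
    intro k hk
    induction hk using Subgroup.closure_induction_left with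
    | one =>
      intro z hz
      rw [one_smul] at hz
      exact Or.inl ⟨hz.eq_of_self ▸ self_mem_orb _ _, rfl⟩
    | mul_left s hs k hk ih =>
      intro z hz
      right
      rcases hz.or (s • x) with h1 | h1
      · exact ⟨1, Subgroup.one_mem _, s, hs, Or.inl (by rwa [one_smul])⟩
      · have h2 : Btw x (s⁻¹ • z) (k • x) := by
          have := h1.smul s⁻¹
          rwa [inv_smul_smul, mul_smul, inv_smul_smul] at this
        have hs' : s ∈ Subgroup.closure S := Subgroup.subset_closure hs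
        rcases ih _ h2 with ⟨_, h4⟩ | ⟨h, hh, t, ht, h3⟩
        · subst h4
          rw [one_smul] at h2
          have e : z = s • x := (inv_smul_eq_iff.1 h2.eq_of_self)
          exact ⟨1, Subgroup.one_mem _, s, hs, Or.inl (by rw [one_smul, e]; exact btw_right _ _)⟩
        · exact ⟨h * s⁻¹, Subgroup.mul_mem _ hh (Subgroup.inv_mem _ hs'), t, ht, by rwa [mul_smul]⟩
    | inv_mul_cancel s hs k hk ih =>
      intro z hz
      right
      have hs' : s ∈ Subgroup.closure S := Subgroup.subset_closure hs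
      rcases hz.or (s⁻¹ • x) with h1 | h1
      · refine ⟨s, hs', s, hs, Or.inl ?_⟩
        have := h1.smul s
        rw [smul_inv_smul] at this
        exact this.symm
      · have h2 : Btw x (s • z) (k • x) := by
          have := h1.smul s
          rwa [smul_inv_smul, mul_smul, smul_inv_smul] at this
        rcases ih _ h2 with ⟨_, h4⟩ | ⟨h, hh, t, ht, h3⟩
        · subst h4
          rw [one_smul] at h2
          exact ⟨s, hs', s, hs, Or.inl (by rw [h2.eq_of_self]; exact btw_left _ _)⟩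
        · exact ⟨h * s, Subgroup.mul_mem _ hh hs', t, ht, by rwa [mul_smul]⟩
  rcases key k hk z hb with ⟨_, h4⟩ | ⟨h, hh, s, hs, h3⟩
  · subst h4
    rw [one_smul] at hb
    exact Or.inl hb.eq_of_self
  · exact Or.inr ⟨h, hh, s, hs, h3.elim id False.elim⟩

end B

/-! ### Invariant subsets as spaces with an action -/

/-- An invariant set as a space with an action. -/
def Inv.sub {C : Set X} (hC : Inv (⊤ : Subgroup G) C) : SubMulAction G X where
  carrier := C
  smul_mem' := fun g _ hx => hC g trivial _ hx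

instance isom_sub [IsIsometricSMul G X] (C : SubMulAction G X) : IsIsometricSMul G C :=
  ⟨fun g => Isometry.of_dist_eq fun x y => dist_smul g (x : X) (y : X)⟩

instance bact_sub [BAct G X] (C : SubMulAction G X) : BAct G C :=
  ⟨fun g x y z h => BAct.btw g (x : X) (y : X) (z : X) h⟩

theorem isTree_sub [IsTree X] (C : SubMulAction G X) (h : MedCl (C : Set X)) : IsTree C := h.isTree

end

end Pool.Agent.MP_3ce0a0_al.Q2T1
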