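import Pool.Agent.MP_3ce0a0_al.Q2T1.Simp

/-!
The coordinate on the axis of a hyperbolic isometry, elements that preserve the axis, and
commutators on an overlap of characteristic sets.
-/

set_option autoImplicit false

open Pointwise

namespace Pool.Agent.MP_3ce0a0_al.Q2T1

noncomputable section

variable {X : Type} [MetricSpace X] {G : Type} [Group G] [MulAction G X]

open Classical in
/-- The position of a point `z` of the axis of `g`, measured from `x` in the direction of
translation. -/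
def pos (g : G) (x z : X) : ℝ := if Btw (g⁻¹ • x) x z then dist x z else -dist x z

/-- On the segment from `p` to `q`, the element `g` is the shift by `c`. -/
def Shift (g : G) (p q : X) (c : ℝ) : Prop :=
  ∀ w, Btw p w q → 0 ≤ dist p w + c → dist p w + c ≤ dist p q →
    Btw p (g • w) q ∧ dist p (g • w) = dist p w + c

/-- The element `k` translates the axis of `g` by `c`. -/
def Trans (g : G) (x : X) (k : G) (c : ℝ) : Prop :=
  ∀ z ∈ Ch X g, k • z ∈ Ch X g ∧ pos g x (k • z) = pos g x z + c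

/-- The element `k` reflects the axis of `g`. -/
def Refl (g : G) (x : X) (k : G) (c : ℝ) : Prop :=
  ∀ z ∈ Ch X g, k • z ∈ Ch X g ∧ pos g x (k • z) = c - pos g x z

variable {g h k l : G} {x y z p q w : X} {H : Subgroup G} {c d : ℝ}

theorem pos_self (g : G) (x : X) : pos g x x = 0 := by simp [pos]

theorem abs_pos_eq (g : G) (x z : X) : |pos g x z| = dist x z := by
  unfold pos
  split_ifs <;> simp

theorem Trans.one (g : G) (x : X) : Trans g x 1 0 := fun z hz => by simpa using hz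

theorem Trans.mul (hk : Trans g x k c) (hl : Trans g x l d) : Trans g x (k * l) (c + d) :=
  fun z hz => by
    rw [mul_smul]
    refine ⟨(hk _ (hl z hz).1).1, ?_⟩
    rw [(hk _ (hl z hz).1).2, (hl z hz).2]
    ring

theorem Refl.mul (hk : Refl g x k c) (hl : Refl g x l d) : Trans g x (k * l) (c - d) :=
  fun z hz => by
    rw [mul_smul]
    refine ⟨(hk _ (hl z hz).1).1, ?_⟩
    rw [(hk _ (hl z hz).1).2, (hl z hz).2]
    ring

theorem Refl.mul_trans (hk : Refl g x k c) (hl : Trans g x l d) : Refl g x (k * l) (c - d) :=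
  fun z hz => by
    rw [mul_smul]
    refine ⟨(hk _ (hl z hz).1).1, ?_⟩
    rw [(hk _ (hl z hz).1).2, (hl z hz).2]
    ring

theorem Trans.mul_refl (hk : Trans g x k c) (hl : Refl g x l d) : Refl g x (k * l) (c + d) :=
  fun z hz => by
    rw [mul_smul]
    refine ⟨(hk _ (hl z hz).1).1, ?_⟩
    rw [(hk _ (hl z hz).1).2, (hl z hz).2]
    ring

theorem Trans.pow (hk : Trans g x k c) (n : ℕ) : Trans g x (k ^ n) (n * c) := by
  induction n with
  | zero => simpa using Trans.one g x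
  | succ n ih =>
    have := ih.mul hk
    rw [← pow_succ] at this
    have e : ((n + 1 : ℕ) : ℝ) * c = n * c + c := by push_cast; ring
    rwa [e]

theorem Trans.eq_pos (hk : Trans g x k c) (hx : x ∈ Ch X g) : c = pos g x (k • x) := by
  rw [(hk x hx).2, pos_self, zero_add]

theorem Trans.unique (hk : Trans g x k c) (hk' : Trans g x k d) (hx : x ∈ Ch X g) : c = d :=
  (hk.eq_pos hx).trans (hk'.eq_pos hx).symm

variable [IsIsometricSMul G X] [IsTree X]

/-- Every point of the axis lies between far translates of the base point. -/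
theorem Hyp.btw_far (hg : Hyp X g) (hx : x ∈ Ch X g) (hz : z ∈ Ch X g) :
    ∃ N : ℤ, 0 < N ∧ ∀ m ≤ -N, ∀ n ≥ N, Btw (g ^ m • x) z (g ^ n • x) := by
  obtain ⟨j, hj⟩ := hg.cover hx hz
  refine ⟨|j| + 1, by positivity, fun m hm n hn => ?_⟩
  have h1 := le_abs_self j
  have h2 := neg_abs_le j
  have a1 : Btw (g ^ j • x) z (g ^ n • x) := hj.trans_left (btw_zpow hx (by omega) (by omega))
  exact (btw_zpow hx (show m ≤ j by omega) (show j ≤ n by omega)).trans_right a1

theorem Hyp.pos_eq (hg : Hyp X g) (hx : x ∈ Ch X g) {m n : ℤ} (hm : m ≤ -1) (hn : 0 ≤ n)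
    (hz : Btw (g ^ m • x) z (g ^ n • x)) : pos g x z = dist (g ^ m • x) z - dist (g ^ m • x) x := by
  have b1 : Btw (g ^ m • x) (g⁻¹ • x) x := by
    simpa using btw_zpow hx hm (show (-1 : ℤ) ≤ 0 by omega)
  have b2 : Btw (g ^ m • x) x (g ^ n • x) := by
    simpa using btw_zpow hx (show m ≤ 0 by omega) hn
  unfold pos
  split_ifs with hc
  · have := b1.concat_right hc (hg.inv.smul_ne x)
    unfold Btw at this
    linarith
  · rcases b2.total hz with h1 | h1
    · exact absurd (b1.trans_left' h1) hc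
    · unfold Btw at h1
      rw [dist_comm x z]
      linarith

/-- The position is an isometric embedding of the axis into the real line. -/
theorem Hyp.dist_eq_pos (hg : Hyp X g) (hx : x ∈ Ch X g) (hy : y ∈ Ch X g) (hz : z ∈ Ch X g) :
    dist y z = |pos g x y - pos g x z| := by
  obtain ⟨N, h0, hN⟩ := hg.btw_far hx hy
  obtain ⟨M, h1, hM⟩ := hg.btw_far hx hz
  have a1 := hN (-(N + M)) (by omega) (N + M) (by omega)
  have a2 := hM (-(N + M)) (by omega) (N + M) (by omega)
  rw [hg.pos_eq hx (by omega) (by omega) a1, hg.pos_eq hx (by omega) (by omega) a2,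
    a1.dist_eq_abs a2]
  congr 1
  ring

theorem Hyp.pos_inj (hg : Hyp X g) (hx : x ∈ Ch X g) (hy : y ∈ Ch X g) (hz : z ∈ Ch X g)
    (e : pos g x y = pos g x z) : y = z := by
  rw [← dist_eq_zero, hg.dist_eq_pos hx hy hz, e, sub_self, abs_zero]

theorem Hyp.pos_smul (hg : Hyp X g) (hx : x ∈ Ch X g) (hz : z ∈ Ch X g) :
    pos g x (g • z) = pos g x z + tl X g := by
  obtain ⟨N, h0, hN⟩ := hg.btw_far hx hz
  have a1 := hN (-N - 1) (by omega) N le_rfl
  have a2 : Btw (g ^ (-N) • x) (g • z) (g ^ (N + 1) • x) := by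
    have := a1.smul g
    rwa [← mul_smul, ← mul_smul, ← zpow_one_add, ← zpow_one_add, show 1 + (-N - 1) = -N by ring,
      add_comm 1 N] at this
  have e1 : dist (g ^ (-N) • x) (g • z) = dist (g ^ (-N - 1) • x) z := by
    rw [← dist_smul g (g ^ (-N - 1) • x), ← mul_smul, ← zpow_one_add, show 1 + (-N - 1) = -N by ring]
  have h0' : (0 : ℝ) < N := by exact_mod_cast h0
  rw [hg.pos_eq hx (by omega) (by omega) a1, hg.pos_eq hx (by omega) (by omega) a2, e1,
    dist_comm _ x, dist_comm _ x, dist_zpow_smul hx, dist_zpow_smul hx]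
  push_cast
  rw [abs_of_nonpos (by linarith), abs_of_nonpos (by linarith)]
  ring

theorem Hyp.trans_self (hg : Hyp X g) (hx : x ∈ Ch X g) : Trans g x g (tl X g) :=
  fun _ hz => ⟨smul_mem_Ch.2 hz, hg.pos_smul hx hz⟩

theorem Hyp.btw_of_pos {a b e : X} (hg : Hyp X g) (hx : x ∈ Ch X g) (ha : a ∈ Ch X g)
    (hb : b ∈ Ch X g) (he : e ∈ Ch X g) (h1 : pos g x a ≤ pos g x b) (h2 : pos g x b ≤ pos g x e) :
    Btw a b e := by
  rw [Btw, hg.dist_eq_pos hx ha hb, hg.dist_eq_pos hx hb he, hg.dist_eq_pos hx ha he,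
    abs_of_nonpos (by linarith), abs_of_nonpos (by linarith), abs_of_nonpos (by linarith)]
  ring

theorem Hyp.btw_iff_pos {a b e : X} (hg : Hyp X g) (hx : x ∈ Ch X g) (ha : a ∈ Ch X g)
    (hb : b ∈ Ch X g) (he : e ∈ Ch X g) : Btw a b e ↔
      (pos g x a ≤ pos g x b ∧ pos g x b ≤ pos g x e) ∨
        (pos g x e ≤ pos g x b ∧ pos g x b ≤ pos g x a) := by
  refine ⟨fun hb' => ?_, fun h1 => h1.elim (fun h1 => hg.btw_of_pos hx ha hb he h1.1 h1.2)
    fun h1 => (hg.btw_of_pos hx he hb ha h1.1 h1.2).symm⟩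
  rw [Btw, hg.dist_eq_pos hx ha hb, hg.dist_eq_pos hx hb he, hg.dist_eq_pos hx ha he] at hb'
  generalize pos g x a = r at *
  generalize pos g x b = s at *
  generalize pos g x e = t at *
  rcases abs_cases (r - s) with h1 | h1 <;> rcases abs_cases (s - t) with h2 | h2 <;>
    rcases abs_cases (r - t) with h3 | h3 <;>
    first
      | exact Or.inl ⟨by linarith, by linarith⟩
      | exact Or.inr ⟨by linarith, by linarith⟩

/-- An isometry of a set of reals with two points is a translation or a reflection. -/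
theorem real_isom {a b s t u : ℝ} (hs : s ≠ 0) (h1 : |b - a| = |s|) (h2 : |u - a| = |t|)
    (h3 : |u - b| = |t - s|) : (b = a + s → u = a + t) ∧ (b = a - s → u = a - t) := by
  have e2 : (u - a) ^ 2 = t ^ 2 := sq_eq_sq_iff_abs_eq_abs _ _ |>.2 h2
  have e3 : (u - b) ^ 2 = (t - s) ^ 2 := sq_eq_sq_iff_abs_eq_abs _ _ |>.2 h3
  constructor
  · rintro rfl
    apply mul_left_cancel₀ hs
    nlinarith
  · rintro rfl
    apply mul_left_cancel₀ hs
    nlinarith

/-- An element that maps the axis into itself translates it or reflects it. -/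
theorem Hyp.trans_or_refl (hg : Hyp X g) (hx : x ∈ Ch X g) (hk : ∀ z ∈ Ch X g, k • z ∈ Ch X g) :
    Trans g x k (pos g x (k • x)) ∨ Refl g x k (pos g x (k • x)) := by
  have hx' : g • x ∈ Ch X g := smul_mem_Ch.2 hx
  have p1 : pos g x (g • x) = tl X g := by rw [hg.pos_smul hx hx, pos_self, zero_add]
  have key : ∀ y ∈ Ch X g, ∀ z ∈ Ch X g,
      |pos g x (k • y) - pos g x (k • z)| = |pos g x y - pos g x z| := fun y hy z hz => by
    rw [← hg.dist_eq_pos hx (hk y hy) (hk z hz), dist_smul, hg.dist_eq_pos hx hy hz]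
  have h1 : |pos g x (k • g • x) - pos g x (k • x)| = |tl X g| := by
    rw [key _ hx' _ hx, p1, pos_self, sub_zero]
  have h2 : ∀ z ∈ Ch X g, _ := fun z hz => real_isom hg.tl_pos.ne' h1
    (show |pos g x (k • z) - pos g x (k • x)| = |pos g x z| by
      rw [key _ hz _ hx, pos_self, sub_zero])
    (show |pos g x (k • z) - pos g x (k • g • x)| = |pos g x z - tl X g| by
      rw [key _ hz _ hx', p1])
  rcases abs_eq_abs.1 h1 with h3 | h3
  · exact Or.inl fun z hz => ⟨hk z hz, by rw [(h2 z hz).1 (by linarith), add_comm]⟩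
  · exact Or.inr fun z hz => ⟨hk z hz, (h2 z hz).2 (by linarith)⟩

/-- An element that commutes with `g` translates the axis. -/
theorem Hyp.trans_of_commute (hg : Hyp X g) (hx : x ∈ Ch X g) (hc : Commute k g) :
    Trans g x k (pos g x (k • x)) := by
  rcases hg.trans_or_refl hx fun z hz => (smul_mem_Ch_of_commute hc).2 hz with h1 | h1
  · exact h1
  · exfalso
    have a1 := (h1 _ (smul_mem_Ch.2 hx)).2
    rw [← mul_smul, hc.eq, mul_smul, hg.pos_smul hx (h1 x hx).1, hg.pos_smul hx hx, pos_self] at a1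
    linarith [hg.tl_pos]

theorem Trans.dist_smul (hk : Trans g x k c) (hg : Hyp X g) (hx : x ∈ Ch X g) (hz : z ∈ Ch X g) :
    dist z (k • z) = |c| := by
  rw [hg.dist_eq_pos hx hz (hk z hz).1, (hk z hz).2, ← abs_neg]
  congr 1
  ring

theorem Trans.fix (hk : Trans g x k 0) (hg : Hyp X g) (hx : x ∈ Ch X g) (hz : z ∈ Ch X g) :
    k • z = z := hg.pos_inj hx (hk z hz).1 hz (by rw [(hk z hz).2, add_zero])

/-- The axis of `g` lies in the characteristic set of each element that translates it. -/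
theorem Trans.mem_Ch (hk : Trans g x k c) (hg : Hyp X g) (hx : x ∈ Ch X g) (hz : z ∈ Ch X g) :
    z ∈ Ch X k := by
  rw [mem_Ch_iff_dist, hk.dist_smul hg hx hz, ← mul_smul, (hk.mul hk).dist_smul hg hx hz, ← two_mul,
    abs_mul, abs_two]

theorem Trans.tl_eq (hk : Trans g x k c) (hg : Hyp X g) (hx : x ∈ Ch X g) : tl X k = |c| := by
  rw [tl_eq_of_mem_Ch (hk.mem_Ch hg hx hx), hk.dist_smul hg hx hx]

theorem Trans.hyp (hk : Trans g x k c) (hg : Hyp X g) (hx : x ∈ Ch X g) (hc : c ≠ 0) : Hyp X k :=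
  hyp_of_tl_pos (hk.mem_Ch hg hx hx) (by rw [hk.tl_eq hg hx]; exact abs_pos.2 hc)

theorem Trans.ell_iff (hk : Trans g x k c) (hg : Hyp X g) (hx : x ∈ Ch X g) : Ell X k ↔ c = 0 :=
  ⟨fun he => by_contra fun hc => (hk.hyp hg hx hc).not_ell he,
    fun e => ⟨x, Trans.fix (e ▸ hk) hg hx hx⟩⟩

theorem Trans.fix_of_ell (hk : Trans g x k c) (hg : Hyp X g) (hx : x ∈ Ch X g) (he : Ell X k)
    (hz : z ∈ Ch X g) : k • z = z := Trans.fix ((hk.ell_iff hg hx).1 he ▸ hk) hg hx hz

/-- If the axis of `g` lies in the axis of `k`, the two axes are equal. -/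
theorem Hyp.Ch_eq_of_subset (hg : Hyp X g) (hk : Hyp X k) (hs : Ch X g ⊆ Ch X k) :
    Ch X g = Ch X k := by
  refine hs.antisymm fun y hy => ?_
  obtain ⟨p, hp⟩ := gated_Ch (Or.inr hg) y
  by_contra hn
  have h1 : g • p ∈ Ch X g := smul_mem_Ch.2 hp.1
  have h2 : g⁻¹ • p ∈ Ch X g := inv_smul_mem_Ch.2 hp.1
  exact hk.not_tri hy (hs h2) (hs h1)
    ⟨fun e => hn (e ▸ hp.1), hg.inv.smul_ne p, hg.smul_ne p, hp.2 _ h2, hp.1, hp.2 _ h1⟩

theorem Trans.Ch_eq (hk : Trans g x k c) (hg : Hyp X g) (hx : x ∈ Ch X g) (hc : c ≠ 0) :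
    Ch X k = Ch X g :=
  (hg.Ch_eq_of_subset (hk.hyp hg hx hc) fun _ hz => hk.mem_Ch hg hx hz).symm

/-- An element that maps the axis of `g` into itself maps it onto itself. -/
theorem Hyp.smul_mem_iff (hg : Hyp X g) (hk : ∀ z ∈ Ch X g, k • z ∈ Ch X g) :
    k • z ∈ Ch X g ↔ z ∈ Ch X g := by
  have : Ch X (k * g * k⁻¹) = Ch X g := (hg.conj k).Ch_eq_of_subset hg fun y hy => by
    have h1 : k⁻¹ • y ∈ Ch X g := by rwa [← smul_mem_Ch_conj k, smul_inv_smul]
    simpa using hk _ h1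
  rw [← smul_mem_Ch_conj k (g := g) (x := z), this]

theorem Trans.inv (hk : Trans g x k c) (hg : Hyp X g) : Trans g x k⁻¹ (-c) := fun z hz => by
  have h1 : k⁻¹ • z ∈ Ch X g := by
    rwa [← hg.smul_mem_iff fun z hz => (hk z hz).1, smul_inv_smul]
  have h2 := (hk _ h1).2
  rw [smul_inv_smul] at h2
  exact ⟨h1, by linarith⟩

theorem Refl.inv (hk : Refl g x k c) (hg : Hyp X g) : Refl g x k⁻¹ c := fun z hz => by
  have h1 : k⁻¹ • z ∈ Ch X g := by
    rwa [← hg.smul_mem_iff fun z hz => (hk z hz).1, smul_inv_smul]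
  have h2 := (hk _ h1).2
  rw [smul_inv_smul] at h2
  exact ⟨h1, by linarith⟩

theorem Trans.zpow (hk : Trans g x k c) (hg : Hyp X g) (n : ℤ) : Trans g x (k ^ n) (n * c) := by
  obtain ⟨m, rfl | rfl⟩ := n.eq_nat_or_neg
  · simpa using hk.pow m
  · simpa using (hk.pow m).inv hg

theorem Hyp.pos_zpow (hg : Hyp X g) (hx : x ∈ Ch X g) (hz : z ∈ Ch X g) (n : ℤ) :
    pos g x (g ^ n • z) = pos g x z + n * tl X g := ((hg.trans_self hx).zpow hg n z hz).2

/-- The square of a reflection fixes the axis. -/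
theorem Refl.sq_fix (hk : Refl g x k c) (hg : Hyp X g) (hx : x ∈ Ch X g) (hz : z ∈ Ch X g) :
    k • k • z = z := by
  rw [← mul_smul]
  exact Trans.fix (sub_self c ▸ hk.mul hk) hg hx hz

theorem Refl.not_hyp (hk : Refl g x k c) (hg : Hyp X g) (hx : x ∈ Ch X g) : ¬ Hyp X k := fun h1 =>
  (h1.pow two_ne_zero).smul_ne x (by rw [pow_two, mul_smul]; exact hk.sq_fix hg hx hx)

/-- A hyperbolic element that maps the axis into itself translates it. -/
theorem Hyp.trans_of_hyp (hg : Hyp X g) (hx : x ∈ Ch X g) (hk : Hyp X k)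
    (hk' : ∀ z ∈ Ch X g, k • z ∈ Ch X g) : Trans g x k (pos g x (k • x)) :=
  (hg.trans_or_refl hx hk').elim id fun h1 => absurd hk (h1.not_hyp hg hx)

theorem Hyp.Ch_eq_of_maps (hg : Hyp X g) (hk : Hyp X k) (hk' : ∀ z ∈ Ch X g, k • z ∈ Ch X g) :
    Ch X k = Ch X g := by
  obtain ⟨x, hx⟩ := Ch_nonempty (Or.inr hg)
  exact (hg.Ch_eq_of_subset hk fun _ hz => (hg.trans_of_hyp hx hk hk').mem_Ch hg hx hz).symm

/-- Commuting hyperbolic elements have the same axis. -/
theorem Hyp.Ch_eq_of_commute (hg : Hyp X g) (hk : Hyp X k) (hc : Commute k g) : Ch X k = Ch X g :=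
  hg.Ch_eq_of_maps hk fun _ hz => (smul_mem_Ch_of_commute hc).2 hz

/-- An elliptic element that commutes with `g` fixes the axis of `g`. -/
theorem Hyp.fix_of_commute (hg : Hyp X g) (hk : Ell X k) (hc : Commute k g) (hz : z ∈ Ch X g) :
    k • z = z := (hg.trans_of_commute hz hc).fix_of_ell hg hz hk hz

/-- The axis of `g` lies in the characteristic set of each element that commutes with `g`. -/
theorem Hyp.mem_Ch_of_commute (hg : Hyp X g) (hc : Commute k g) (hz : z ∈ Ch X g) : z ∈ Ch X k :=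
  (hg.trans_of_commute hz hc).mem_Ch hg hz hz

/-- The square of an element that preserves the axis translates it. -/
theorem Hyp.trans_sq (hg : Hyp X g) (hx : x ∈ Ch X g) (hk : ∀ z ∈ Ch X g, k • z ∈ Ch X g) :
    ∃ c, Trans g x (k ^ 2) c := by
  rw [pow_two]
  exact (hg.trans_or_refl hx hk).elim (fun h1 => ⟨_, h1.mul h1⟩) fun h1 => ⟨_, h1.mul h1⟩

/-- Two translations of the axis commute on the axis. -/
theorem Trans.comm (hk : Trans g x k c) (hl : Trans g x l d) (hg : Hyp X g) (hx : x ∈ Ch X g)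
    (hz : z ∈ Ch X g) : k • l • z = l • k • z := by
  have h1 := hk.mul hl z hz
  have h2 := hl.mul hk z hz
  rw [mul_smul] at h1 h2
  exact hg.pos_inj hx h1.1 h2.1 (by rw [h1.2, h2.2, add_comm c d])

theorem Trans.commutator (hk : Trans g x k c) (hl : Trans g x l d) (hg : Hyp X g) :
    Trans g x (k * l * k⁻¹ * l⁻¹) 0 := by
  have := ((hk.mul hl).mul (hk.inv hg)).mul (hl.inv hg)
  rwa [show c + d + -c + -d = 0 by ring] at this

/-- A commutator of two elements that preserve the axis translates it. -/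
theorem Hyp.trans_commutator (hg : Hyp X g) (hx : x ∈ Ch X g) (hk : ∀ z ∈ Ch X g, k • z ∈ Ch X g)
    (hl : ∀ z ∈ Ch X g, l • z ∈ Ch X g) : ∃ c, Trans g x (k * l * k⁻¹ * l⁻¹) c := by
  rcases hg.trans_or_refl hx hk with h1 | h1 <;> rcases hg.trans_or_refl hx hl with h2 | h2
  · exact ⟨_, h1.commutator h2 hg⟩
  · exact ⟨_, ((h1.mul_refl h2).mul_trans (h1.inv hg)).mul (h2.inv hg)⟩
  · exact ⟨_, ((h1.mul_trans h2).mul (h1.inv hg)).mul (h2.inv hg)⟩
  · exact ⟨_, ((h1.mul h2).mul_refl (h1.inv hg)).mul (h2.inv hg)⟩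

/-- The commutator of the squares of two elements that preserve the axis fixes it. -/
theorem Hyp.commutator_sq_fix (hg : Hyp X g) (hk : ∀ z ∈ Ch X g, k • z ∈ Ch X g)
    (hl : ∀ z ∈ Ch X g, l • z ∈ Ch X g) (hz : z ∈ Ch X g) :
    (k ^ 2 * l ^ 2 * (k ^ 2)⁻¹ * (l ^ 2)⁻¹) • z = z := by
  obtain ⟨c, h1⟩ := hg.trans_sq hz hk
  obtain ⟨d, h2⟩ := hg.trans_sq hz hl
  exact (h1.commutator h2 hg).fix hg hz hz

/-- The signed translation length of a group of translations of the axis. -/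
def axisHom (g : G) (x : X) (H : Subgroup G) (hH : ∀ k ∈ H, Trans g x k (pos g x (k • x)))
    (hx : x ∈ Ch X g) : H →* Multiplicative ℝ :=
  MonoidHom.mk' (fun k => Multiplicative.ofAdd (pos g x ((k : G) • x))) fun k l => by
    rw [← ofAdd_add, ((hH k k.2).mul (hH l l.2)).eq_pos hx]
    rfl

/-- A group of translations of the axis maps to the real line; the kernel fixes the axis. -/
theorem Hyp.ex_hom_of_trans (hg : Hyp X g) (hx : x ∈ Ch X g) (hH : ∀ k ∈ H, ∃ c, Trans g x k c) :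
    ∃ f : H →* Multiplicative ℝ, ∀ k : H, Trans g x k (f k).toAdd ∧ tl X (k : G) = |(f k).toAdd| ∧
      (f k = 1 ↔ Ell X (k : G)) ∧ (f k = 1 → ∀ z ∈ Ch X g, (k : G) • z = z) ∧
      (f k ≠ 1 → Hyp X (k : G) ∧ Ch X (k : G) = Ch X g) := by
  have hH' : ∀ k ∈ H, Trans g x k (pos g x (k • x)) := fun k hk => by
    obtain ⟨c, hc⟩ := hH k hk
    exact hc.eq_pos hx ▸ hc
  refine ⟨axisHom g x H hH' hx, fun k => ?_⟩
  have h1 : Trans g x k (axisHom g x H hH' hx k).toAdd := hH' k k.2
  have h2 : axisHom g x H hH' hx k = 1 ↔ (axisHom g x H hH' hx k).toAdd = 0 := toAdd_eq_zero.symm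
  refine ⟨h1, h1.tl_eq hg hx, h2.trans (h1.ell_iff hg hx).symm, fun e z hz => ?_, fun e => ?_⟩
  · exact Trans.fix (h2.1 e ▸ h1) hg hx hz
  · exact ⟨h1.hyp hg hx (mt h2.2 e), h1.Ch_eq hg hx (mt h2.2 e)⟩

/-- The centraliser of a hyperbolic element maps to the real line. -/
theorem Hyp.ex_hom (hg : Hyp X g) (hH : ∀ k ∈ H, Commute k g) :
    ∃ f : H →* Multiplicative ℝ, ∀ k : H, tl X (k : G) = |(f k).toAdd| ∧
      (f k = 1 ↔ Ell X (k : G)) ∧ (f k = 1 → ∀ z ∈ Ch X g, (k : G) • z = z) ∧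
      (f k ≠ 1 → Hyp X (k : G) ∧ Ch X (k : G) = Ch X g) := by
  obtain ⟨x, hx⟩ := Ch_nonempty (Or.inr hg)
  obtain ⟨f, hf⟩ := hg.ex_hom_of_trans hx fun k hk => ⟨_, hg.trans_of_commute hx (hH k hk)⟩
  exact ⟨f, fun k => (hf k).2⟩

/-- A central element has an elliptic square or survives in a real character. -/
theorem ell_sq_or_hom [Nonempty X] (hg : g ∈ H) (hH : ∀ k ∈ H, Commute k g) :
    Ell X (g ^ 2) ∨ ∃ f : H →* Multiplicative ℝ, f ⟨g, hg⟩ ≠ 1 := by
  rcases hyp_or_sq_fix g (Classical.arbitrary X) with h1 | ⟨m, hm⟩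
  · obtain ⟨f, hf⟩ := h1.ex_hom hH
    exact Or.inr ⟨f, fun e => h1.not_ell ((hf ⟨g, hg⟩).2.1.1 e)⟩
  · exact Or.inl ⟨m, by rwa [pow_two, mul_smul]⟩

/-! ### Overlaps of characteristic sets -/

/-- On a segment inside its characteristic set, an element is a shift. -/
theorem ex_shift (hp : p ∈ Ch X g) (hq : q ∈ Ch X g) :
    ∃ c : ℝ, |c| = tl X g ∧ Shift g p q c ∧ Shift g⁻¹ p q (-c) := by
  rcases ell_or_hyp_of_mem_Ch hp with hg | hg
  · refine ⟨0, by rw [hg.tl_eq, abs_zero], fun w hw _ _ => ?_, fun w hw _ _ => ?_⟩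
    · rw [hw.fix (hg.mem_Ch.1 hp) (hg.mem_Ch.1 hq)]
      exact ⟨hw, (add_zero _).symm⟩
    · rw [inv_smul_eq_iff.2 (hw.fix (hg.mem_Ch.1 hp) (hg.mem_Ch.1 hq)).symm]
      exact ⟨hw, by simp⟩
  have key : ∀ {k : G} {c : ℝ}, Trans g p k c →
      (0 ≤ pos g p q → Shift k p q c) ∧ (pos g p q ≤ 0 → Shift k p q (-c)) := by
    intro k c hk
    have d1 := abs_pos_eq g p q
    constructor
    · intro h0 w hw h1 h2
      have hw' : w ∈ Ch X g := conv_Ch g p hp q hq w hw
      have d2 := abs_pos_eq g p w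
      have d3 := abs_pos_eq g p (k • w)
      have h3 := (hg.btw_iff_pos hp hp hw' hq).1 hw
      rw [pos_self] at h3
      have h4 : 0 ≤ pos g p w := h3.elim (fun h => h.1) fun h => by linarith [h.1]
      rw [abs_of_nonneg h0] at d1
      rw [abs_of_nonneg h4] at d2
      rw [(hk w hw').2, abs_of_nonneg (by linarith)] at d3
      refine ⟨hg.btw_of_pos hp hp (hk w hw').1 hq ?_ ?_, by linarith⟩
      · rw [pos_self, (hk w hw').2]
        linarith
      · rw [(hk w hw').2]
        linarith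
    · intro h0 w hw h1 h2
      have hw' : w ∈ Ch X g := conv_Ch g p hp q hq w hw
      have d2 := abs_pos_eq g p w
      have d3 := abs_pos_eq g p (k • w)
      have h3 := (hg.btw_iff_pos hp hp hw' hq).1 hw
      rw [pos_self] at h3
      have h4 : pos g p w ≤ 0 := h3.elim (fun h => by linarith [h.2]) fun h => h.2
      rw [abs_of_nonpos h0] at d1
      rw [abs_of_nonpos h4] at d2
      rw [(hk w hw').2, abs_of_nonpos (by linarith)] at d3
      refine ⟨(hg.btw_of_pos hp hq (hk w hw').1 hp ?_ ?_).symm, by linarith⟩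
      · rw [(hk w hw').2]
        linarith
      · rw [pos_self, (hk w hw').2]
        linarith
  have t1 := hg.trans_self hp
  rcases le_total 0 (pos g p q) with h0 | h0
  · exact ⟨_, abs_of_nonneg (tl_nonneg g), (key t1).1 h0, (key (t1.inv hg)).1 h0⟩
  · exact ⟨_, by rw [abs_neg, abs_of_nonneg (tl_nonneg g)], (key t1).2 h0, (key (t1.inv hg)).2 h0⟩

omit [IsIsometricSMul G X] in
theorem Shift.comm (hg : Shift g p q c) (hh : Shift h p q d) (hw : Btw p w q)
    (a1 : 0 ≤ dist p w + c) (a2 : dist p w + c ≤ dist p q) (b1 : 0 ≤ dist p w + d)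
    (b2 : dist p w + d ≤ dist p q) (c1 : 0 ≤ dist p w + c + d) (c2 : dist p w + c + d ≤ dist p q) :
    g • h • w = h • g • w := by
  obtain ⟨g1, g2⟩ := hg w hw a1 a2
  obtain ⟨h1, h2⟩ := hh w hw b1 b2
  obtain ⟨g3, g4⟩ := hg _ h1 (by linarith) (by linarith)
  obtain ⟨h3, h4⟩ := hh _ g1 (by linarith) (by linarith)
  exact g3.eq_of_dist h3 (by linarith)

/-- An element moves the points in the middle of a segment of its characteristic set along it. -/
theorem btw_smul_of_mem_Ch (hp : p ∈ Ch X g) (hq : q ∈ Ch X g) (hw : Btw p w q)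
    (h1 : tl X g ≤ dist p w) (h2 : tl X g ≤ dist w q) : Btw p (g • w) q := by
  obtain ⟨c, hc, hs, -⟩ := ex_shift hp hq
  have := hw
  unfold Btw at this
  exact (hs w hw (by linarith [neg_abs_le c]) (by linarith [le_abs_self c])).1

/-- Two elements commute on the middle part of an overlap of their characteristic sets. -/
theorem comm_on_overlap (hp : p ∈ Ch X g) (hq : q ∈ Ch X g) (hp' : p ∈ Ch X h) (hq' : q ∈ Ch X h)
    (hw : Btw p w q) (h1 : tl X g + tl X h ≤ dist p w) (h2 : tl X g + tl X h ≤ dist w q) :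
    g • h • w = h • g • w := by
  obtain ⟨c, hc, hs, -⟩ := ex_shift hp hq
  obtain ⟨d, hd, ht, -⟩ := ex_shift hp' hq'
  have := hw
  unfold Btw at this
  have := neg_abs_le c
  have := le_abs_self c
  have := neg_abs_le d
  have := le_abs_self d
  have := abs_nonneg c
  have := abs_nonneg d
  exact hs.comm ht hw (by linarith) (by linarith) (by linarith) (by linarith) (by linarith)
    (by linarith)

/-- The commutator fixes the middle part of an overlap of the characteristic sets. -/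
theorem commutator_fix_overlap (hp : p ∈ Ch X g) (hq : q ∈ Ch X g) (hp' : p ∈ Ch X h)
    (hq' : q ∈ Ch X h) (hw : Btw p w q) (h1 : tl X g + tl X h ≤ dist p w)
    (h2 : tl X g + tl X h ≤ dist w q) : (g * h * g⁻¹ * h⁻¹) • w = w := by
  have := comm_on_overlap (g := g⁻¹) (h := h⁻¹) (by rwa [Ch_inv]) (by rwa [Ch_inv])
    (by rwa [Ch_inv]) (by rwa [Ch_inv]) hw (by rwa [tl_inv, tl_inv]) (by rwa [tl_inv, tl_inv])
  rw [mul_smul, mul_smul, mul_smul, this, smul_inv_smul, smul_inv_smul]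

omit [IsIsometricSMul G X] [IsTree X] in
theorem Shift.ex_low (hg : Shift g p q c) (hw : Btw p w q) (h1 : dist p w + |c| ≤ dist p q) :
    ∃ u, Btw p u q ∧ dist p u = dist p w + max c 0 := by
  rcases le_total c 0 with h0 | h0
  · exact ⟨w, hw, by rw [max_eq_right h0, add_zero]⟩
  · rw [abs_of_nonneg h0] at h1
    exact ⟨_, by rw [max_eq_left h0]; exact hg w hw (by positivity) h1⟩

omit [IsIsometricSMul G X] [IsTree X] in
theorem Shift.ex_high (hg : Shift g p q c) (hw : Btw p w q) (h1 : |c| ≤ dist p w) :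
    ∃ u, Btw p u q ∧ dist p u = dist p w + min c 0 := by
  rcases le_total c 0 with h0 | h0
  · rw [abs_of_nonpos h0] at h1
    exact ⟨_, by
      rw [min_eq_left h0]
      exact hg w hw (by linarith) (by linarith [hw.dist_le_left])⟩
  · exact ⟨w, hw, by rw [min_eq_right h0, add_zero]⟩

/-- On an overlap of length at least the sum of the translation lengths, the two elements commute
on a segment whose length is the excess. -/
theorem ex_comm_seg (hp : p ∈ Ch X g) (hq : q ∈ Ch X g) (hp' : p ∈ Ch X h) (hq' : q ∈ Ch X h)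
    (hd : tl X g + tl X h ≤ dist p q) : ∃ u v, Btw p u q ∧ Btw p v q ∧
      dist u v = dist p q - tl X g - tl X h ∧ g • h • u = h • g • u ∧ g • h • v = h • g • v := by
  obtain ⟨c, hc, hs, hs'⟩ := ex_shift hp hq
  obtain ⟨d, hd', ht, ht'⟩ := ex_shift hp' hq'
  have c0 := abs_nonneg c
  have d0 := abs_nonneg d
  have m1 : max (-c) 0 - min (-c) 0 = |c| := by
    rcases le_total c 0 with h0 | h0
    · rw [max_eq_left (by linarith), min_eq_right (by linarith), abs_of_nonpos h0, sub_zero]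
    · rw [max_eq_right (by linarith), min_eq_left (by linarith), abs_of_nonneg h0]
      ring
  have m2 : max (-d) 0 - min (-d) 0 = |d| := by
    rcases le_total d 0 with h0 | h0
    · rw [max_eq_left (by linarith), min_eq_right (by linarith), abs_of_nonpos h0, sub_zero]
    · rw [max_eq_right (by linarith), min_eq_left (by linarith), abs_of_nonneg h0]
      ring
  have := le_max_left (-c) 0
  have := le_max_right (-c) 0
  have := min_le_left (-c) 0
  have := min_le_right (-c) 0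
  have := le_max_left (-d) 0
  have := le_max_right (-d) 0
  have := min_le_left (-d) 0
  have := min_le_right (-d) 0
  obtain ⟨u0, a1, a2⟩ := hs'.ex_low (btw_left p q) (by rw [dist_self, abs_neg]; linarith)
  rw [dist_self] at a2
  obtain ⟨u, a3, a4⟩ := ht'.ex_low a1 (by rw [abs_neg]; linarith)
  obtain ⟨v0, b1, b2⟩ := hs'.ex_high (btw_right p q) (by rw [abs_neg]; linarith)
  obtain ⟨v, b3, b4⟩ := ht'.ex_high b1 (by rw [abs_neg]; linarith)
  refine ⟨u, v, a3, b3, ?_, hs.comm ht a3 (by linarith) (by linarith) (by linarith) (by linarith)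
    (by linarith) (by linarith), hs.comm ht b3 (by linarith) (by linarith) (by linarith)
    (by linarith) (by linarith) (by linarith)⟩
  rw [a3.dist_eq_abs b3, abs_of_nonpos (by linarith)]
  linarith

/-- A long overlap makes the commutator elliptic, with a fixed segment of length the excess. -/
theorem ex_commutator_fix (hp : p ∈ Ch X g) (hq : q ∈ Ch X g) (hp' : p ∈ Ch X h) (hq' : q ∈ Ch X h)
    (hd : tl X g + tl X h ≤ dist p q) : ∃ u v, Btw p u q ∧ Btw p v q ∧
      dist u v = dist p q - tl X g - tl X h ∧ (g * h * g⁻¹ * h⁻¹) • u = u ∧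
        (g * h * g⁻¹ * h⁻¹) • v = v := by
  obtain ⟨u, v, h1, h2, h3, h4, h5⟩ := ex_comm_seg (g := g⁻¹) (h := h⁻¹) (p := p) (q := q)
    (by rwa [Ch_inv]) (by rwa [Ch_inv]) (by rwa [Ch_inv]) (by rwa [Ch_inv])
    (by rwa [tl_inv, tl_inv])
  rw [tl_inv, tl_inv] at h3
  refine ⟨u, v, h1, h2, h3, ?_, ?_⟩
  · rw [mul_smul, mul_smul, mul_smul, h4, smul_inv_smul, smul_inv_smul]
  · rw [mul_smul, mul_smul, mul_smul, h5, smul_inv_smul, smul_inv_smul]

end

end Pool.Agent.MP_3ce0a0_al.Q2T1
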