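import Pool.Agent.MP_3ce0a0_al.Q2T1.Serre

/-!
Simplicial trees.
-/

set_option autoImplicit false

open Pointwise

namespace Pool.Agent.MP_3ce0a0_al.Q2T1

noncomputable section

variable {X : Type} [MetricSpace X] [IsSimp X] {x y z p q : X}

theorem one_le_dist (h : x ≠ y) : 1 ≤ dist x y := by
  obtain ⟨n, hn⟩ := IsSimp.int x y
  have h1 := dist_pos.2 h
  rw [hn] at h1 ⊢
  exact_mod_cast (Nat.one_le_iff_ne_zero.2 (by rintro rfl; simp at h1) : 1 ≤ n)

theorem eq_of_dist_lt_one (h : dist x y < 1) : x = y := by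
  by_contra hn
  exact absurd (one_le_dist hn) (not_le.2 h)

theorem add_one_le_dist {a b : X} (h : dist x y < dist a b) : dist x y + 1 ≤ dist a b := by
  obtain ⟨n, hn⟩ := IsSimp.int x y
  obtain ⟨m, hm⟩ := IsSimp.int a b
  rw [hn, hm] at h ⊢
  exact_mod_cast (Nat.succ_le_of_lt (by exact_mod_cast h) : n + 1 ≤ m)

omit [IsSimp X] in
theorem ne_of_adj (h : dist x y = 1) : x ≠ y := by
  rintro rfl
  simp at h

theorem Btw.eq_or_eq_of_adj (h : Btw x z y) (hd : dist x y = 1) : z = x ∨ z = y := by
  by_contra hn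
  push Not at hn
  have h1 := one_le_dist hn.1.symm
  have h2 := one_le_dist hn.2
  unfold Btw at h
  linarith

theorem adj_iff : dist x y = 1 ↔ x ≠ y ∧ ∀ z, Btw x z y → z = x ∨ z = y := by
  refine ⟨fun h => ⟨ne_of_adj h, fun z hz => hz.eq_or_eq_of_adj h⟩, fun ⟨h1, h2⟩ => ?_⟩
  obtain ⟨z, hz, hb⟩ := IsSimp.geo x y h1
  rcases h2 z hb with rfl | rfl
  · exact absurd rfl (ne_of_adj hz)
  · exact hz

/-- Every point is on one of the two sides of an edge. -/
theorem adj_side (hd : dist x y = 1) (z : X) : Btw z x y ∨ Btw x y z := by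
  rcases (med_btw12 x y z).eq_or_eq_of_adj hd with h | h
  · exact Or.inl (med_eq_left_iff.1 h).symm
  · exact Or.inr (med_eq_mid_iff.1 h)

theorem mem_dir_adj (hd : dist x y = 1) : z ∈ dir x y ↔ Btw x y z :=
  ⟨fun h => (adj_side hd z).elim (fun h1 => absurd h1.symm h) id,
    fun h => h.mem_dir (ne_of_adj hd).symm⟩

theorem compl_dir_adj (hd : dist x y = 1) : (dir x y)ᶜ = dir y x := by
  ext z
  rw [Set.mem_compl_iff, not_mem_dir, mem_dir_adj (by rwa [dist_comm])]

theorem dist_adj (hd : dist x y = 1) (z : X) :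
    dist z y = dist z x + 1 ∨ dist z x = dist z y + 1 := by
  rcases adj_side hd z with h | h
  · left
    unfold Btw at h
    linarith
  · right
    unfold Btw at h
    rw [dist_comm z x, dist_comm z y]
    linarith

/-- Two different neighbours lie in different directions. -/
theorem btw_of_adj_adj (hy : dist x y = 1) (hz : dist x z = 1) (hne : y ≠ z) : Btw y x z := by
  by_contra hn
  exact hne (((mem_dir_adj hy).1 hn).antisymm ((mem_dir_adj hz).1 fun h => hn h.symm))

theorem adj_unique (hy : dist x y = 1) (hz : dist x z = 1) (h : z ∈ dir x y) : y = z := by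
  by_contra hne
  exact h (btw_of_adj_adj hy hz hne)

theorem adj_unique' {w : X} (hy : dist x y = 1) (hz : dist x z = 1) (h1 : Btw x y w) (h2 : Btw x z w) :
    y = z := h1.eq_of_dist h2 (hy.trans hz.symm)

/-- Every direction starts with an edge. -/
theorem ex_adj_dir (h : y ≠ x) : ∃ z, dist x z = 1 ∧ Btw x z y ∧ dir x z = dir x y := by
  obtain ⟨z, hz, hb⟩ := IsSimp.geo x y h.symm
  exact ⟨z, hz, hb, (hb.dir_eq (ne_of_adj hz).symm).symm⟩

theorem Dirs.ex_adj {δ : Set X} (h : δ ∈ Dirs x) : ∃ z, dist x z = 1 ∧ δ = dir x z := by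
  obtain ⟨y, hy, rfl⟩ := h
  obtain ⟨z, h1, -, h2⟩ := ex_adj_dir hy
  exact ⟨z, h1, h2.symm⟩

/-- Induction along the geodesics that end at `y`. -/
theorem geo_induction {P : X → Prop} (y : X) (h0 : P y)
    (hs : ∀ x z, dist x z = 1 → Btw x z y → P z → P x) (x : X) : P x := by
  obtain ⟨n, hn⟩ := IsSimp.int x y
  induction n generalizing x with
  | zero => rwa [dist_eq_zero.1 (hn.trans Nat.cast_zero)]
  | succ n ih =>
    have hne : x ≠ y := by
      rintro rfl
      rw [dist_self] at hn
      exact absurd hn.symm (by positivity)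
    obtain ⟨z, hz, hb⟩ := IsSimp.geo x y hne
    refine hs x z hz hb (ih z ?_)
    unfold Btw at hb
    push_cast at hn
    linarith

/-- Induction along one segment. -/
theorem seg_induction {P : X → Prop} (h0 : P x)
    (hs : ∀ u v, Btw x u y → Btw x v y → Btw x u v → dist u v = 1 → P u → P v) (hz : Btw x z y) :
    P z := by
  revert hz
  refine geo_induction (P := fun z => Btw x z y → P z) x (fun _ => h0) (fun v u hd hb ih hv => ?_) z
  have hu := hb.symm.trans_left hv
  exact hs u v hu hv hb.symm (by rwa [dist_comm]) (ih hu)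

/-- A property that passes along edges holds everywhere. -/
theorem adj_induction {P : X → Prop} (y : X) (h0 : P y) (hs : ∀ x z, dist x z = 1 → P z → P x)
    (x : X) : P x := geo_induction y h0 (fun x z h _ => hs x z h) x

theorem ex_btw_dist (x y : X) (k : ℕ) (hk : (k : ℝ) ≤ dist x y) : ∃ z, Btw x z y ∧ dist x z = k := by
  induction k with
  | zero => exact ⟨x, btw_left _ _, by simp⟩
  | succ k ih =>
    push_cast at hk ⊢
    obtain ⟨z, hz, hd⟩ := ih (by linarith)
    have hne : z ≠ y := by
      rintro rfl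
      linarith
    obtain ⟨w, hw, hb⟩ := IsSimp.geo z y hne
    refine ⟨w, hz.trans_right hb, ?_⟩
    have := hz.trans_right' hb
    unfold Btw at this
    linarith

theorem seg_finite (x y : X) : (seg x y).Finite := by
  refine geo_induction (P := fun x => (seg x y).Finite) y (by simp [seg_self]) (fun x z hd hb ih => ?_) x
  refine (ih.insert x).subset fun w hw => ?_
  rcases Btw.or hw z with h | h
  · rcases h.eq_or_eq_of_adj hd with rfl | rfl
    · exact Or.inl rfl
    · exact Or.inr (btw_left _ _)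
  · exact Or.inr h

theorem hull_finite {A : Set X} (hA : A.Finite) : (hull A).Finite := by
  refine (hA.biUnion fun x _ => hA.biUnion fun y _ => seg_finite x y).subset ?_
  rintro z ⟨x, hx, y, hy, h⟩
  simp only [Set.mem_iUnion]
  exact ⟨x, hx, y, hy, h⟩

/-- A set that is left on the way from `x` to `y` is left along an edge. -/
theorem ex_cross {s : Set X} (hx : x ∈ s) (hy : y ∉ s) :
    ∃ u v, Btw x u y ∧ Btw x v y ∧ Btw x u v ∧ dist u v = 1 ∧ u ∈ s ∧ v ∉ s := by
  by_contra hn
  refine hy (seg_induction (P := fun z => z ∈ s) hx (fun u v h1 h2 h3 h4 h5 => ?_) (btw_right x y))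
  by_contra h6
  exact hn ⟨u, v, h1, h2, h3, h4, h5, h6⟩

theorem ex_min_dist {C : Set X} (hne : C.Nonempty) (y : X) :
    ∃ p ∈ C, ∀ z ∈ C, dist y p ≤ dist y z := by
  choose d hd using IsSimp.int (X := X)
  obtain ⟨p, hp, hmin⟩ := (measure (d y)).wf.has_min C hne
  refine ⟨p, hp, fun z hz => ?_⟩
  rw [hd, hd]
  exact_mod_cast not_lt.1 (hmin z hz)

/-- Non-empty convex sets are gated. -/
theorem Conv.gated {C : Set X} (hC : Conv C) (hne : C.Nonempty) : Gated C := fun y => by
  obtain ⟨p, hp, hmin⟩ := ex_min_dist hne y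
  exact ⟨p, hp, hC.gate_of_dist hp hmin⟩

theorem Conv.isSimp {C : Set X} (hC : Conv C) : IsSimp C where
  toIsTree := hC.medCl.isTree
  int x y := IsSimp.int (x : X) y
  geo x y h := by
    obtain ⟨z, hz, hb⟩ := IsSimp.geo (x : X) y fun e => h (Subtype.ext e)
    exact ⟨⟨z, hC _ x.2 _ y.2 z hb⟩, hz, hb⟩

/-- A connected set of vertices is convex. -/
theorem conv_of_conn {C : Set X} (hx : x ∈ C)
    (h : ∀ y ∈ C, Relation.ReflTransGen (fun u v => u ∈ C ∧ v ∈ C ∧ dist u v = 1) x y) : Conv C := by
  refine conv_of_star x fun y hy => ?_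
  have h1 := h y hy
  clear hy
  induction h1 with
  | refl => exact fun z hz => hz.eq_of_self ▸ hx
  | tail _ huv ih =>
    intro z hz
    rcases hz.or _ with h2 | h2
    · exact ih z h2
    · rcases h2.eq_or_eq_of_adj huv.2.2 with rfl | rfl
      · exact huv.1
      · exact huv.2.1

variable {G : Type} [Group G] [MulAction G X] [IsIsometricSMul G X] {g h : G} {H : Subgroup G}

theorem isSimp_sub (C : SubMulAction G X) (h : Conv (C : Set X)) : IsSimp C := h.isSimp

/-- An element whose square has a fixed point is elliptic or inverts an edge. -/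
theorem ell_or_inv_of_sq (hm : g • g • x = x) :
    Ell X g ∨ ∃ y : X, dist y (g • y) = 1 ∧ g • g • y = y := by
  obtain ⟨p, hp, hmin⟩ : ∃ p : X, g • g • p = p ∧ ∀ z : X, g • g • z = z →
      dist p (g • p) ≤ dist z (g • z) := by
    choose d hd using IsSimp.int (X := X)
    obtain ⟨p, hp, hmin⟩ := (measure fun z : X => d z (g • z)).wf.has_min {z | g • g • z = z} ⟨x, hm⟩
    refine ⟨p, hp, fun z hz => ?_⟩
    rw [hd, hd]
    exact_mod_cast not_lt.1 (hmin z hz)
  by_cases e : g • p = p
  · exact Or.inl ⟨p, e⟩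
  obtain ⟨z, hz, hb⟩ := IsSimp.geo p (g • p) (Ne.symm e)
  by_cases e1 : z = g • p
  · exact Or.inr ⟨p, e1 ▸ hz, hp⟩
  exfalso
  have h1 : g • g • z = z := by
    have := hb.fix (g := g * g) (by rwa [mul_smul]) (by rw [mul_smul, hp])
    rwa [mul_smul] at this
  have h2 : Btw p (g • z) (g • p) := by
    have := hb.smul g
    rw [hp] at this
    exact this.symm
  have h3 := hmin z h1
  have h4 := one_le_dist e1
  have h5 := h2
  rw [Btw, dist_smul, dist_comm z p] at h5
  rw [hb.dist_eq_abs h2, abs_sub_comm] at h3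
  unfold Btw at hb
  rw [abs_of_nonneg (by linarith)] at h3
  linarith

theorem simp_trichotomy [Nonempty X] (g : G) :
    Ell X g ∨ Hyp X g ∨ ∃ y : X, dist y (g • y) = 1 ∧ g • g • y = y := by
  rcases hyp_or_sq_fix g (Classical.arbitrary X) with h | ⟨m, hm⟩
  · exact Or.inr (Or.inl h)
  · exact (ell_or_inv_of_sq hm).imp id Or.inr

/-- Without inversions every element is elliptic or hyperbolic. -/
theorem NoInv.dich [Nonempty X] (h : NoInv X H) : Dich X H := fun g hg => by
  rcases simp_trichotomy (X := X) g with h1 | h1 | ⟨y, h1, h2⟩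
  · exact Or.inl h1
  · exact Or.inr h1
  · exact absurd h2 (h g hg y h1)

theorem Dich.noInv (h : Dich X H) : NoInv X H := by
  intro g hg x h1 h2
  rcases h g hg with h3 | h3
  · obtain ⟨p, hp, e, hb⟩ := ex_proj (Or.inl h3) x
    rw [h3.tl_eq, h1] at e
    rcases hb.eq_or_eq_of_adj h1 with e1 | e1
    · rw [e1, dist_self] at e
      linarith
    · rw [e1, h1] at e
      linarith
  · exact (h3.pow two_ne_zero).smul_ne x (by rwa [pow_two, mul_smul])

theorem NoInv.not_swap (h : NoInv X H) (hg : g ∈ H) (hd : dist x y = 1) (h1 : g • x = y) :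
    g • y ≠ x := by
  subst h1
  exact h g hg x hd

/-- The square of any element is elliptic or hyperbolic. -/
theorem sq_ell_or_hyp [Nonempty X] (g : G) : Ell X (g ^ 2) ∨ Hyp X (g ^ 2) := by
  rcases hyp_or_sq_fix g (Classical.arbitrary X) with h | ⟨m, hm⟩
  · exact Or.inr (h.pow two_ne_zero)
  · exact Or.inl ⟨m, by rwa [pow_two, mul_smul]⟩

theorem tl_nat (hd : Ell X g ∨ Hyp X g) : ∃ n : ℕ, tl X g = n := by
  obtain ⟨x, hx⟩ := Ch_nonempty hd
  rw [tl_eq_of_mem_Ch hx]
  exact IsSimp.int _ _

theorem Hyp.one_le_tl (h : Hyp X g) : 1 ≤ tl X g := by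
  obtain ⟨x, hx⟩ := Ch_nonempty (Or.inr h)
  rw [tl_eq_of_mem_Ch hx]
  exact one_le_dist (h.smul_ne x).symm

/-- An element that fixes a vertex and a direction fixes the first edge. -/
theorem fix_adj (hx : g • x = x) (hd : dist x y = 1) (hz : z ∈ dir x y) (hz' : g • z ∈ dir x y) :
    g • y = y := by
  have h1 : g • z ∈ dir x (g • y) := by
    have := (smul_mem_dir g).2 hz
    rwa [hx] at this
  have h2 : dist x (g • y) = 1 := by rw [← hx, dist_smul, hd]
  exact adj_unique' h2 hd ((mem_dir_adj h2).1 h1) ((mem_dir_adj hd).1 hz')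

/-- An element that fixes two vertices fixes the first edge of the geodesic. -/
theorem ex_fix_adj (hx : g • x = x) (hy : g • y = y) (hne : x ≠ y) :
    ∃ z, dist x z = 1 ∧ Btw x z y ∧ g • z = z := by
  obtain ⟨z, hz, hb⟩ := IsSimp.geo x y hne
  exact ⟨z, hz, hb, hb.fix hx hy⟩

/-- A subgroup with a fixed vertex has one in every non-empty invariant convex set. -/
theorem Conv.fix_in {C : Set X} (hC : Conv C) (hne : C.Nonempty) (hI : Inv H C) (hx : x ∈ Fix X H) :
    ∃ p ∈ C, p ∈ Fix X H := (hC.gated hne).fix_in hI hx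

/-- A subgroup with a bounded orbit and no inversion has a fixed vertex. -/
theorem fix_of_bounded (hN : NoInv X H) (c : ℝ) (hb : ∀ h ∈ H, dist x (h • x) ≤ c) :
    (Fix X H).Nonempty := by
  obtain ⟨n, hn⟩ := exists_nat_ge c
  have hb' : ∀ h ∈ H, dist x (h • x) ≤ n := fun h hh => (hb h hh).trans hn
  clear hb hn
  induction n using Nat.strong_induction_on generalizing x with
  | _ n ih =>
    by_cases hx : x ∈ Fix X H
    · exact ⟨x, hx⟩
    by_cases hlt : ∀ h ∈ H, dist x (h • x) < n
    · have hn0 : n ≠ 0 := by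
        rintro rfl
        have := hlt 1 H.one_mem
        simp at this
      refine ih (n - 1) (by omega) (x := x) fun h hh => ?_
      obtain ⟨k, hk⟩ := IsSimp.int x (h • x)
      have := hlt h hh
      rw [hk] at this ⊢
      have : k < n := by exact_mod_cast this
      exact_mod_cast (by omega : k ≤ n - 1)
    push Not at hlt
    obtain ⟨k, hk, hk'⟩ := hlt
    have ek : dist x (k • x) = n := (hb' k hk).antisymm hk'
    have hne : x ≠ k • x := by
      intro e
      rw [← e, dist_self] at ek
      exact hx fun h hh => (dist_le_zero.1 ((hb' h hh).trans ek.ge)).symm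
    obtain ⟨z, hz, hzb⟩ := IsSimp.geo x (k • x) hne
    have hdd : ∀ a ∈ H, ∀ b ∈ H, dist (a • x) (b • x) ≤ n := fun a ha b hb => by
      have := hb' (a⁻¹ * b) (H.mul_mem (H.inv_mem ha) hb)
      rwa [← dist_smul a, mul_smul, smul_inv_smul] at this
    have hside : ∀ h ∈ H, h • x ≠ x → Btw x z (h • x) := fun h hh hne' => by
      rcases adj_side hz (h • x) with h1 | h1
      · have h2 := h1.concat_left hzb (ne_of_adj hz)
        have h3 := hdd h hh k hk
        unfold Btw at h2
        linarith [dist_pos.2 hne']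
      · exact h1
    have hn1 : (1 : ℝ) ≤ n := ek ▸ one_le_dist hne
    by_cases h1 : n = 1
    · exfalso
      subst h1
      have e1 : dist x (k • x) = 1 := by simpa using ek
      have e2 : k • k • x ≠ x := hN k hk x e1
      have e3 : dist x (k • k • x) = 1 := by
        have := hdd 1 H.one_mem (k * k) (H.mul_mem hk hk)
        rw [one_smul, mul_smul] at this
        exact le_antisymm (by simpa using this) (one_le_dist e2.symm)
      have e4 : k • x ≠ k • k • x := fun e => hne (smul_left_cancel k e)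
      have := btw_of_adj_adj e1 e3 e4
      rw [Btw, dist_smul, dist_comm, e1, e3] at this
      linarith
    refine ih (n - 1) (by have : 1 ≤ n := by exact_mod_cast hn1
                          omega) (x := z) fun h hh => ?_
    have hn2 : 2 ≤ n := by
      have : 1 ≤ n := by exact_mod_cast hn1
      omega
    have ecast : ((n - 1 : ℕ) : ℝ) = n - 1 := by
      rw [Nat.cast_sub (by omega)]
      simp
    have hn2' : (2 : ℝ) ≤ n := by exact_mod_cast hn2
    rw [ecast]
    by_cases e : h • x = x
    · have h2 := (hside _ (H.mul_mem (H.inv_mem hh) hk) (fun e' => hne (by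
        rw [mul_smul, inv_smul_eq_iff, e] at e'
        exact e'.symm))).smul h
      rw [mul_smul, smul_inv_smul, e] at h2
      have h3 : h • z = z := h2.eq_of_dist hzb (by rw [← e, dist_smul, e])
      rw [h3, dist_self]
      linarith
    · have h2 := hside h hh e
      have h3 := (hside _ (H.inv_mem hh) fun e' => e (inv_smul_eq_iff.1 e').symm).smul h
      rw [smul_inv_smul] at h3
      have h4 := h3
      rw [Btw, dist_smul, hz, dist_comm (h • x) x, dist_comm (h • z) x] at h4
      rw [h2.dist_eq_abs h3.symm, hz, abs_le]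
      have h5 := hb' h hh
      have h6 := dist_nonneg (x := x) (y := h • z)
      constructor <;> linarith

end

end Pool.Agent.MP_3ce0a0_al.Q2T1
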